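import Pool.Agent.J4.H63.SA.S6

set_option autoImplicit false

/-! Derivatives of functions with exponentially decaying Fourier transform; Bernstein's inequality. -/

namespace Pool.Agent.J4.H63.TS

open Complex MeasureTheory Filter Topology Set Pool.Agent.TH535.SM
open scoped FourierTransform

noncomputable section

/-- the Fourier side of the `j`-th derivative -/
def hj (F : ℝ → ℂ) (j : ℕ) (w : ℝ) : ℂ := (-2 * Real.pi * I * w) ^ j * 𝓕 F (-w)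

lemma pow_exp (p : ℕ) {x : ℝ} (hx : 0 ≤ x) : x ^ p * Real.exp (-x) ≤ p.factorial := by
  have h1 := Real.pow_div_factorial_le_exp x hx p
  have hf : (0:ℝ) < p.factorial := by exact_mod_cast Nat.factorial_pos p
  rw [div_le_iff₀ hf] at h1
  calc x ^ p * Real.exp (-x) ≤ (Real.exp x * p.factorial) * Real.exp (-x) := by gcongr
    _ = p.factorial * (Real.exp x * Real.exp (-x)) := by ring
    _ = _ := by rw [← Real.exp_add, add_neg_cancel, Real.exp_zero, mul_one]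

lemma pow_exp' (p : ℕ) {x : ℝ} (hx : 0 ≤ x) : (1 + x) ^ p * Real.exp (-x) ≤ p.factorial * Real.exp 1 := by
  have h1 := pow_exp p (by linarith : 0 ≤ 1 + x)
  calc (1 + x) ^ p * Real.exp (-x) = ((1 + x) ^ p * Real.exp (-(1 + x))) * Real.exp 1 := by
        rw [mul_assoc, ← Real.exp_add]; congr 2; ring
    _ ≤ _ := by gcongr

lemma norm_hj (F : ℝ → ℂ) (j : ℕ) (w : ℝ) : ‖hj F j w‖ = (2 * Real.pi * |w|) ^ j * ‖𝓕 F (-w)‖ := by
  unfold hj
  rw [norm_mul, norm_pow]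
  congr 2
  rw [norm_mul, norm_mul, norm_mul, norm_I, Complex.norm_real, Complex.norm_real, norm_neg,
    Real.norm_of_nonneg Real.pi_pos.le, Real.norm_eq_abs]
  simp

lemma hj_dec {F : ℝ → ℂ} (hF : Dec F) {B : ℝ} (hB : 0 ≤ B)
    (hd : ∀ w : ℝ, ‖𝓕 F w‖ ≤ B * Real.exp (-(2 * Real.pi * |w|))) (j : ℕ) : Dec (hj F j) := by
  refine ⟨?_, ?_⟩
  · have h1 := ft_cont hF
    unfold hj
    exact (by fun_prop : Continuous fun w : ℝ => (-2 * (Real.pi : ℂ) * I * w) ^ j).mul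
      (h1.comp (by fun_prop))
  · refine ⟨B * ((j + 2).factorial * Real.exp 1), by positivity, fun w => ?_⟩
    rw [norm_hj]
    have hw := abs_nonneg w
    have hpi := Real.pi_gt_three
    obtain ⟨x, hx⟩ : ∃ x, x = 2 * Real.pi * |w| := ⟨_, rfl⟩
    have hx0 : 0 ≤ x := by rw [hx]; positivity
    have hwx : |w| ≤ x := by rw [hx]; nlinarith
    have h1 := hd (-w)
    rw [abs_neg, ← hx] at h1
    rw [← hx]
    have h2 := pow_exp' (j + 2) hx0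
    have hpos : 0 < (1 + |w|) ^ 2 := by positivity
    rw [← div_eq_mul_inv, le_div_iff₀ hpos]
    calc x ^ j * ‖𝓕 F (-w)‖ * (1 + |w|) ^ 2 ≤ (1 + x) ^ j * (B * Real.exp (-x)) * (1 + x) ^ 2 := by
          gcongr
          linarith
      _ = B * ((1 + x) ^ (j + 2) * Real.exp (-x)) := by rw [pow_add]; ring
      _ ≤ _ := by gcongr

lemma inv_eq {F : ℝ → ℂ} (hF : Dec F) (hI : Integrable (𝓕 F)) : F = 𝓕 (hj F 0) := by
  have h1 := hF.cont.fourierInv_fourier_eq hF.int hI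
  have h2 : hj F 0 = fun w => 𝓕 F (-w) := by
    funext w
    unfold hj
    rw [pow_zero, one_mul]
  rw [h2, ← Real.fourierInv_eq_fourier_comp_neg]
  exact h1.symm

lemma pow_int {F : ℝ → ℂ} (hF : Dec F) {B : ℝ} (hB : 0 ≤ B)
    (hd : ∀ w : ℝ, ‖𝓕 F w‖ ≤ B * Real.exp (-(2 * Real.pi * |w|))) (n : ℕ) :
    Integrable (fun x : ℝ => x ^ n • hj F 0 x) := by
  have h1 := (hj_dec hF hB hd n).int
  have h2 := h1.const_mul ((-2 * (Real.pi : ℂ) * I) ^ n)⁻¹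
  refine h2.congr (Eventually.of_forall fun x => ?_)
  simp only [hj, pow_zero, one_mul, Complex.real_smul]
  have : ((-2 * (Real.pi : ℂ) * I) ^ n) ≠ 0 := by
    refine pow_ne_zero _ ?_
    simp [Real.pi_ne_zero]
  rw [mul_pow _ (x : ℂ), Complex.ofReal_pow]
  field_simp

lemma ft_int {F : ℝ → ℂ} (hF : Dec F) {B : ℝ} (hB : 0 ≤ B)
    (hd : ∀ w : ℝ, ‖𝓕 F w‖ ≤ B * Real.exp (-(2 * Real.pi * |w|))) : Integrable (𝓕 F) := by
  have h1 := (hj_dec hF hB hd 0).int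
  have h2 := h1.comp_neg
  refine h2.congr (Eventually.of_forall fun x => ?_)
  simp [hj]

lemma deriv_eq {F : ℝ → ℂ} (hF : Dec F) {B : ℝ} (hB : 0 ≤ B)
    (hd : ∀ w : ℝ, ‖𝓕 F w‖ ≤ B * Real.exp (-(2 * Real.pi * |w|))) (j : ℕ) :
    iteratedDeriv j F = 𝓕 (hj F j) := by
  have hI := ft_int hF hB hd
  conv_lhs => rw [inv_eq hF hI]
  rw [Real.iteratedDeriv_fourier (N := ⊤) (fun n _ => pow_int hF hB hd n) le_top]
  congr 1
  funext x
  simp only [hj, pow_zero, one_mul, smul_eq_mul]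

lemma smooth {F : ℝ → ℂ} (hF : Dec F) {B : ℝ} (hB : 0 ≤ B)
    (hd : ∀ w : ℝ, ‖𝓕 F w‖ ≤ B * Real.exp (-(2 * Real.pi * |w|))) (j : ℕ) : ContDiff ℝ j F := by
  have hI := ft_int hF hB hd
  rw [inv_eq hF hI]
  have h := Real.contDiff_fourier (f := hj F 0) (N := (j : ℕ∞)) (fun n _ => by
    refine (pow_int hF hB hd n).norm.congr (Eventually.of_forall fun x => ?_)
    simp only
    rw [norm_smul, norm_pow])
  exact_mod_cast h

/-- Plancherel for the derivatives -/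
lemma deriv_norm {F : ℝ → ℂ} (hF : Dec F) {B : ℝ} (hB : 0 ≤ B)
    (hd : ∀ w : ℝ, ‖𝓕 F w‖ ≤ B * Real.exp (-(2 * Real.pi * |w|))) (j : ℕ) :
    Integrable (fun t => ‖iteratedDeriv j F t‖ ^ 2) ∧
    Integrable (fun w => (2 * Real.pi * |w|) ^ (2 * j) * ‖𝓕 F w‖ ^ 2) ∧
    ∫ t, ‖iteratedDeriv j F t‖ ^ 2 = ∫ w, (2 * Real.pi * |w|) ^ (2 * j) * ‖𝓕 F w‖ ^ 2 := by
  have hD := hj_dec hF hB hd j
  obtain ⟨h1, h2⟩ := planch hD
  have e : ∀ w : ℝ, ‖hj F j (-w)‖ ^ 2 = (2 * Real.pi * |w|) ^ (2 * j) * ‖𝓕 F w‖ ^ 2 := by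
    intro w
    rw [norm_hj, neg_neg, abs_neg, mul_pow, ← pow_mul, mul_comm 2 j]
  refine ⟨by rw [deriv_eq hF hB hd]; exact h1, ?_, ?_⟩
  · have := hD.sq.comp_neg
    exact this.congr (Eventually.of_forall fun w => e w)
  · rw [deriv_eq hF hB hd, h2, ← integral_neg_eq_self]
    exact integral_congr_ae (Eventually.of_forall fun w => e w)

/-- **Bernstein's inequality with tails.** -/
lemma bernstein {F Fr Fl : ℝ → ℂ} (hF : Dec F) (hr : Dec Fr) (hl : Dec Fl) {B : ℝ} (hB : 0 ≤ B)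
    (hd : ∀ w : ℝ, ‖𝓕 F w‖ ≤ B * Real.exp (-(2 * Real.pi * |w|))) {u : ℕ} (hu : 1 ≤ u)
    (h1 : ∀ w : ℝ, ‖𝓕 F w‖ = Real.exp (-(2 * Real.pi * w * u)) * ‖𝓕 Fr w‖)
    (h2 : ∀ w : ℝ, ‖𝓕 F w‖ = Real.exp (2 * Real.pi * w * u) * ‖𝓕 Fl w‖) {Λ : ℝ} (hΛ : 0 ≤ Λ) (j : ℕ) :
    ∫ t, ‖iteratedDeriv j F t‖ ^ 2 ≤ Λ ^ (2 * j) * (∫ t, ‖F t‖ ^ 2) +
      (2 * j).factorial * Real.exp (-(Λ * (2 * u - 1))) * ((∫ t, ‖Fr t‖ ^ 2) + ∫ t, ‖Fl t‖ ^ 2) := by
  obtain ⟨-, i1, e1⟩ := deriv_norm hF hB hd j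
  have hu1 : (1:ℝ) ≤ u := by exact_mod_cast hu
  obtain ⟨p1, p2⟩ := planch hF
  obtain ⟨r1, r2⟩ := planch hr
  obtain ⟨l1, l2⟩ := planch hl
  have hpi := Real.pi_pos
  have s1 : Integrable (fun w => ‖𝓕 Fr w‖ ^ 2 + ‖𝓕 Fl w‖ ^ 2) := r1.add l1
  rw [e1, ← p2, ← r2, ← l2, ← integral_const_mul, ← integral_add r1 l1, ← integral_const_mul,
    ← integral_add (p1.const_mul _) (s1.const_mul _)]
  refine integral_mono i1 ((p1.const_mul _).add (s1.const_mul _)) fun w => ?_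
  simp only
  have key : ∀ (x : ℝ) (y : ℝ), Λ < x → 0 ≤ y → x ^ (2 * j) * (Real.exp (-(x * u)) * y) ^ 2 ≤
      (2 * j).factorial * Real.exp (-(Λ * (2 * u - 1))) * y ^ 2 := by
    intro x y hx hy
    have hx0 : 0 ≤ x := by linarith
    have h3 := pow_exp (2 * j) hx0
    have h4 : Real.exp (-(x * (2 * u - 1))) ≤ Real.exp (-(Λ * (2 * u - 1))) := by
      refine Real.exp_le_exp.2 ?_
      nlinarith
    have h5 : (Real.exp (-(x * u)) * y) ^ 2 = (Real.exp (-x) * Real.exp (-(x * (2 * u - 1)))) * y ^ 2 := by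
      rw [mul_pow, ← Real.exp_nat_mul, ← Real.exp_add]
      congr 2
      push_cast
      ring
    rw [h5]
    calc _ = (x ^ (2 * j) * Real.exp (-x)) * Real.exp (-(x * (2 * u - 1))) * y ^ 2 := by ring
      _ ≤ (2 * j).factorial * Real.exp (-(Λ * (2 * u - 1))) * y ^ 2 := by gcongr
  have q1 : 0 ≤ Λ ^ (2 * j) * ‖𝓕 F w‖ ^ 2 := by positivity
  have q2 : 0 ≤ (2 * j).factorial * Real.exp (-(Λ * (2 * u - 1))) * ‖𝓕 Fr w‖ ^ 2 := by positivity
  have q3 : 0 ≤ (2 * j).factorial * Real.exp (-(Λ * (2 * u - 1))) * ‖𝓕 Fl w‖ ^ 2 := by positivity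
  rcases le_or_gt (2 * Real.pi * |w|) Λ with h | h
  · have : (2 * Real.pi * |w|) ^ (2 * j) * ‖𝓕 F w‖ ^ 2 ≤ Λ ^ (2 * j) * ‖𝓕 F w‖ ^ 2 := by
      have hw := abs_nonneg w
      gcongr
    linarith
  · rcases le_total 0 w with hw | hw
    · rw [abs_of_nonneg hw] at h ⊢
      have h3 := key _ _ h (norm_nonneg (𝓕 Fr w))
      rw [← h1] at h3
      linarith
    · rw [abs_of_nonpos hw] at h ⊢
      have h3 := key _ _ h (norm_nonneg (𝓕 Fl w))
      have e2 : -(2 * Real.pi * -w * u) = 2 * Real.pi * w * u := by ring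
      rw [e2, ← h2] at h3
      linarith

end

end Pool.Agent.J4.H63.TS
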