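import Mathlib

set_option autoImplicit false

/-! Lagrange interpolation at separated nodes; choice of the nodes in a set of positive measure. -/

namespace Pool.Agent.J4.H63.TS

open MeasureTheory Set Finset

noncomputable section

/-- `∏_{j ≠ i} |i - j|` -/
lemma prod_abs (n i : ℕ) (hi : i ≤ n) :
    ∏ j ∈ (range (n + 1)).erase i, |(i : ℝ) - j| = (i.factorial : ℝ) * ((n - i).factorial : ℝ) := by
  have h1 : (range (n + 1)).erase i = (range i) ∪ ((range (n - i)).image fun m => m + (i + 1)) := by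
    ext j
    simp only [mem_erase, Finset.mem_range, Finset.mem_union, Finset.mem_image]
    constructor
    · rintro ⟨a, b⟩
      rcases Nat.lt_or_ge j i with h | h
      · exact Or.inl h
      · exact Or.inr ⟨j - (i + 1), by omega, by omega⟩
    · rintro (h | ⟨m, h, rfl⟩) <;> omega
  have hdisj : Disjoint (range i) ((range (n - i)).image fun m => m + (i + 1)) := by
    rw [Finset.disjoint_left]
    intro j hj hj'
    simp only [Finset.mem_range, Finset.mem_image] at hj hj'
    obtain ⟨m, hm, rfl⟩ := hj'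
    omega
  rw [h1, Finset.prod_union hdisj, Finset.prod_image (fun a _ b _ h => by simpa using h)]
  congr 1
  · rw [← Finset.prod_range_reflect, ← Finset.prod_range_add_one_eq_factorial]
    push_cast
    refine Finset.prod_congr rfl fun j hj => ?_
    rw [Finset.mem_range] at hj
    have : ((i - 1 - j : ℕ) : ℝ) = (i : ℝ) - 1 - j := by
      rw [Nat.sub_sub, Nat.cast_sub (by omega)]
      push_cast; ring
    rw [this]
    have : (i : ℝ) - (i - 1 - j) = (j : ℝ) + 1 := by ring
    rw [this, abs_of_nonneg (by positivity)]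
  · rw [← Finset.prod_range_add_one_eq_factorial]
    push_cast
    refine Finset.prod_congr rfl fun j _ => ?_
    have : (i : ℝ) - (j + (i + 1)) = -((j : ℝ) + 1) := by ring
    rw [this, abs_neg, abs_of_nonneg (by positivity)]

lemma sep_of_step {x : ℕ → ℝ} {d : ℝ} (hd : 0 ≤ d) {n : ℕ} (h : ∀ i < n, x i + d ≤ x (i + 1)) :
    ∀ i j : ℕ, i ≤ n → j ≤ n → |(i : ℝ) - j| * d ≤ |x i - x j| := by
  have h1 : ∀ m i : ℕ, i + m ≤ n → x i + m * d ≤ x (i + m) := by
    intro m
    induction m with
    | zero => intro i _; simp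
    | succ m ih =>
      intro i hi
      have a := ih i (by omega)
      have b := h (i + m) (by omega)
      have e : i + (m + 1) = i + m + 1 := by ring
      rw [e]
      push_cast
      linarith
  intro i j hi hj
  rcases le_total i j with hij | hij
  · obtain ⟨m, rfl⟩ := Nat.exists_eq_add_of_le hij
    have a := h1 m i hj
    have hm : (0:ℝ) ≤ m * d := by positivity
    have e : (i : ℝ) - ((i + m : ℕ) : ℝ) = -(m : ℝ) := by push_cast; ring
    rw [e, abs_neg, abs_of_nonneg (Nat.cast_nonneg m), abs_of_nonpos (by linarith)]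
    linarith
  · obtain ⟨m, rfl⟩ := Nat.exists_eq_add_of_le hij
    have a := h1 m j hi
    have hm : (0:ℝ) ≤ m * d := by positivity
    have e : ((j + m : ℕ) : ℝ) - (j : ℝ) = (m : ℝ) := by push_cast; ring
    rw [e, abs_of_nonneg (Nat.cast_nonneg m), abs_of_nonneg (by linarith)]
    linarith

/-- polynomials from separated nodes -/
lemma remez_poly {n : ℕ} {a l d : ℝ} (hd : 0 < d) (hl : 0 ≤ l) {x : ℕ → ℝ}
    (hx : ∀ i ≤ n, x i ∈ Set.Icc a (a + l)) (hs : ∀ i < n, x i + d ≤ x (i + 1)) (Q : Polynomial ℂ)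
    (hQ : Q.degree < (n + 1 : ℕ)) {S : ℝ} (hS : ∀ i ≤ n, ‖Q.eval (x i : ℂ)‖ ≤ S) {y : ℝ}
    (hy : y ∈ Set.Icc a (a + l)) : ‖Q.eval (y : ℂ)‖ ≤ (2 * l / d) ^ n / n.factorial * S := by
  have hsep := sep_of_step hd.le hs
  have hinj : Set.InjOn (fun i : ℕ => (x i : ℂ)) (range (n + 1) : Finset ℕ) := by
    intro i hi j hj hij
    rw [Finset.mem_coe, Finset.mem_range] at hi hj
    simp only [Complex.ofReal_inj] at hij
    have h1 := hsep i j (by omega) (by omega)
    rw [hij, sub_self, abs_zero] at h1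
    have h2 : |(i : ℝ) - j| ≤ 0 := by
      by_contra hcon
      push Not at hcon
      nlinarith
    have h3 : (i : ℝ) - j = 0 := abs_eq_zero.1 (le_antisymm h2 (abs_nonneg _))
    exact_mod_cast sub_eq_zero.1 h3
  have h1 := Lagrange.eq_interpolate hinj (f := Q) (by rwa [Finset.card_range])
  have h2 : Q.eval (y : ℂ) = ∑ i ∈ range (n + 1), Q.eval (x i : ℂ) *
      ∏ j ∈ (range (n + 1)).erase i, (((x i : ℂ) - x j)⁻¹ * ((y : ℂ) - x j)) := by
    conv_lhs => rw [h1]
    rw [Lagrange.interpolate_apply, Polynomial.eval_finsetSum]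
    refine Finset.sum_congr rfl fun i _ => ?_
    rw [Polynomial.eval_mul, Polynomial.eval_C, Lagrange.basis, Polynomial.eval_prod]
    congr 1
    refine Finset.prod_congr rfl fun j _ => ?_
    rw [Lagrange.basisDivisor]
    simp
  have hS0 : 0 ≤ S := (norm_nonneg _).trans (hS 0 (Nat.zero_le n))
  have hterm : ∀ i ∈ range (n + 1), ‖Q.eval (x i : ℂ) *
      ∏ j ∈ (range (n + 1)).erase i, (((x i : ℂ) - x j)⁻¹ * ((y : ℂ) - x j))‖ ≤
      S * ((l / d) ^ n * ((n.choose i : ℝ) / n.factorial)) := by
    intro i hi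
    rw [Finset.mem_range] at hi
    have hi' : i ≤ n := by omega
    rw [norm_mul, norm_prod]
    refine mul_le_mul (hS i hi') ?_ (by positivity) hS0
    have h3 : ∀ j ∈ (range (n + 1)).erase i, ‖((x i : ℂ) - x j)⁻¹ * ((y : ℂ) - x j)‖ ≤
        (l / d) * |(i : ℝ) - j|⁻¹ := by
      intro j hj
      rw [Finset.mem_erase, Finset.mem_range] at hj
      have hne : 0 < |(i : ℝ) - j| := by
        rw [abs_pos, sub_ne_zero]
        exact_mod_cast (Ne.symm hj.1)
      have h4 := hsep i j hi' (by omega)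
      rw [norm_mul, norm_inv, ← Complex.ofReal_sub, ← Complex.ofReal_sub, Complex.norm_real, Complex.norm_real,
        Real.norm_eq_abs, Real.norm_eq_abs]
      have h5 : |y - x j| ≤ l := by
        have := hx j (by omega)
        rw [abs_le]
        constructor <;> linarith [this.1, this.2, hy.1, hy.2]
      have h6 : |x i - x j|⁻¹ ≤ (|(i : ℝ) - j| * d)⁻¹ := inv_anti₀ (by positivity) h4
      calc |x i - x j|⁻¹ * |y - x j| ≤ (|(i : ℝ) - j| * d)⁻¹ * l := by gcongr
        _ = _ := by rw [mul_inv]; ring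
    calc _ ≤ ∏ j ∈ (range (n + 1)).erase i, ((l / d) * |(i : ℝ) - j|⁻¹) :=
          Finset.prod_le_prod (fun _ _ => norm_nonneg _) h3
      _ = (l / d) ^ n * (∏ j ∈ (range (n + 1)).erase i, |(i : ℝ) - j|)⁻¹ := by
          rw [Finset.prod_mul_distrib, Finset.prod_const, Finset.card_erase_of_mem (Finset.mem_range.2 hi),
            Finset.card_range, Nat.add_sub_cancel, Finset.prod_inv_distrib]
      _ = (l / d) ^ n * ((n.choose i : ℝ) / n.factorial) := by
          rw [prod_abs n i hi', Nat.cast_choose ℝ hi']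
          have f1 : (n.factorial : ℝ) ≠ 0 := by positivity
          have f2 : (i.factorial : ℝ) ≠ 0 := by positivity
          have f3 : ((n - i).factorial : ℝ) ≠ 0 := by positivity
          field_simp
  rw [h2]
  refine (norm_sum_le _ _).trans ((Finset.sum_le_sum hterm).trans (le_of_eq ?_))
  rw [← Finset.mul_sum, ← Finset.mul_sum, ← Finset.sum_div]
  have h7 : ∑ i ∈ range (n + 1), (n.choose i : ℝ) = 2 ^ n := by
    exact_mod_cast Nat.sum_range_choose n
  rw [h7, show (2 * l / d) = 2 * (l / d) by ring, mul_pow]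
  ring

/-- the leftmost points of a set of positive measure -/
lemma first_pt {E : Set ℝ} {a b : ℝ} (hE : E ⊆ Set.Icc a b) (hpos : 0 < volume E) {d : ℝ} (hd : 0 < d) :
    ∃ x ∈ E, volume (E ∩ Set.Iic (x + d)) ≤ ENNReal.ofReal (2 * d) := by
  set S : Set ℝ := {x | 0 < volume (E ∩ Set.Iic x)} with hS
  have hne : S.Nonempty := ⟨b, by
    change 0 < volume (E ∩ Set.Iic b)
    have hsub : E ⊆ Set.Iic b := fun x hx => (hE hx).2
    rwa [Set.inter_eq_left.2 hsub]⟩
  have hbd : BddBelow S := by
    refine ⟨a, fun x hx => ?_⟩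
    by_contra hcon
    push Not at hcon
    have : E ∩ Set.Iic x = ∅ := by
      ext y
      simp only [Set.mem_inter_iff, Set.mem_Iic, Set.mem_empty_iff_false, iff_false, not_and]
      intro hy
      have := (hE hy).1
      intro h
      linarith
    have hx' : 0 < volume (E ∩ Set.Iic x) := hx
    rw [this, measure_empty] at hx'
    exact lt_irrefl _ hx'
  set s := sInf S with hs
  have hnull : volume (E ∩ Set.Iic s) = 0 := by
    have h1 : ∀ n : ℕ, volume (E ∩ Set.Iic (s - 1 / (n + 1 : ℝ))) = 0 := by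
      intro n
      by_contra hcon
      have hmem : s - 1 / (n + 1 : ℝ) ∈ S := pos_iff_ne_zero.2 hcon
      have h2 := csInf_le hbd hmem
      have h3 : (0:ℝ) < 1 / (n + 1 : ℝ) := by positivity
      linarith
    have h2 : E ∩ Set.Iic s ⊆ (⋃ n : ℕ, E ∩ Set.Iic (s - 1 / (n + 1 : ℝ))) ∪ {s} := by
      rintro y ⟨hy1, hy2⟩
      rcases lt_or_eq_of_le (show y ≤ s from hy2) with h | h
      · left
        obtain ⟨n, hn⟩ := exists_nat_one_div_lt (show 0 < s - y by linarith)
        rw [Set.mem_iUnion]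
        exact ⟨n, hy1, by rw [Set.mem_Iic]; linarith⟩
      · right; exact h
    refine measure_mono_null h2 (measure_union_null ?_ (by simp))
    exact measure_iUnion_null h1
  obtain ⟨z, hz, hz2⟩ := exists_lt_of_csInf_lt hne (show sInf S < s + d by rw [← hs]; linarith)
  have hz' : 0 < volume (E ∩ Set.Iic z) := hz
  have h3 : ∃ x ∈ E ∩ Set.Iic z, x ∉ E ∩ Set.Iic s := by
    by_contra hcon
    push Not at hcon
    exact (measure_mono_null hcon hnull ▸ hz').ne rfl
  obtain ⟨x, ⟨hxE, hxz⟩, hxs⟩ := h3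
  have hxs' : s < x := by
    by_contra hcon
    push Not at hcon
    exact hxs ⟨hxE, hcon⟩
  have hxz' : x ≤ z := hxz
  refine ⟨x, hxE, ?_⟩
  have h4 : E ∩ Set.Iic (x + d) ⊆ (E ∩ Set.Iic s) ∪ Set.Ioc s (x + d) := by
    rintro y ⟨hy1, hy2⟩
    rcases le_or_gt y s with h | h
    · left; exact ⟨hy1, h⟩
    · right; exact ⟨h, hy2⟩
  refine (measure_mono h4).trans ((measure_union_le _ _).trans ?_)
  rw [hnull, zero_add, Real.volume_Ioc]
  exact ENNReal.ofReal_le_ofReal (by linarith)

/-- separated points in a set of positive measure -/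
lemma nodes {d : ℝ} (hd : 0 < d) (n : ℕ) : ∀ (E : Set ℝ) (a b : ℝ), E ⊆ Set.Icc a b → MeasurableSet E →
    ENNReal.ofReal (2 * d * n) < volume E →
    ∃ x : ℕ → ℝ, (∀ i ≤ n, x i ∈ E) ∧ ∀ i < n, x i + d ≤ x (i + 1) := by
  induction n with
  | zero =>
    intro E a b _ _ h
    have h1 : E.Nonempty := by
      by_contra hcon
      rw [Set.not_nonempty_iff_eq_empty] at hcon
      rw [hcon, measure_empty] at h
      exact not_lt_zero h
    obtain ⟨x, hx⟩ := h1
    exact ⟨fun _ => x, fun _ _ => hx, fun i hi => absurd hi (Nat.not_lt_zero i)⟩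
  | succ n ih =>
    intro E a b hE hm h
    have hpos : 0 < volume E := lt_of_le_of_lt zero_le h
    obtain ⟨x0, hx0, hv⟩ := first_pt hE hpos hd
    have hm1 : MeasurableSet (E ∩ Set.Ioi (x0 + d)) := hm.inter measurableSet_Ioi
    have h1 : volume E ≤ volume (E ∩ Set.Iic (x0 + d)) + volume (E ∩ Set.Ioi (x0 + d)) := by
      refine (measure_mono ?_).trans (measure_union_le _ _)
      intro y hy
      rcases le_or_gt y (x0 + d) with h | h
      · left; exact ⟨hy, h⟩
      · right; exact ⟨hy, h⟩
    have h2 : ENNReal.ofReal (2 * d * n) < volume (E ∩ Set.Ioi (x0 + d)) := by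
      by_contra hcon
      push Not at hcon
      have h3 : volume E ≤ ENNReal.ofReal (2 * d) + ENNReal.ofReal (2 * d * n) :=
        h1.trans (add_le_add hv hcon)
      rw [← ENNReal.ofReal_add (by positivity) (by positivity)] at h3
      have e : 2 * d + 2 * d * n = 2 * d * ((n + 1 : ℕ) : ℝ) := by push_cast; ring
      rw [e] at h3
      exact absurd h3 (not_le.2 h)
    obtain ⟨x, hx, hs⟩ := ih (E ∩ Set.Ioi (x0 + d)) a b (fun y hy => hE hy.1) hm1 h2
    refine ⟨fun i => Nat.casesOn i x0 x, ?_, ?_⟩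
    · intro i hi
      cases i with
      | zero => exact hx0
      | succ i => exact (hx i (by omega)).1
    · intro i hi
      cases i with
      | zero =>
        have := (hx 0 (Nat.zero_le n)).2
        exact le_of_lt this
      | succ i => exact hs i (by omega)

end

end Pool.Agent.J4.H63.TS
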