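import Pool.Agent.J4.H63.TS.K2

set_option autoImplicit false

/-! The local inequality. -/

namespace Pool.Agent.J4.H63.TS

open MeasureTheory Set Filter Topology
open scoped Nat

noncomputable section

lemma taylor_poly {f : ℝ → ℂ} {n : ℕ} (hf : ContDiff ℝ (n + 1 : ℕ) f) {a l D : ℝ} (hl : 0 < l)
    (hD : ∀ y ∈ Icc a (a + l), ‖iteratedDeriv (n + 1) f y‖ ≤ D) :
    ∃ Q : Polynomial ℂ, Q.degree < (n + 1 : ℕ) ∧ ∀ y ∈ Icc a (a + l),
      ‖f y - Q.eval (y : ℂ)‖ ≤ D * l ^ (n + 1) / n.factorial := by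
  have hD0 : 0 ≤ D := (norm_nonneg _).trans (hD a ⟨le_rfl, by linarith⟩)
  set s : Set ℝ := Icc a (a + l) with hs
  have hu : UniqueDiffOn ℝ s := uniqueDiffOn_Icc (by linarith)
  refine ⟨∑ k ∈ Finset.range (n + 1), Polynomial.C ((((k ! : ℕ) : ℝ)⁻¹ : ℝ) * iteratedDerivWithin k f s a) *
    (Polynomial.X - Polynomial.C (a : ℂ)) ^ k, ?_, fun y hy => ?_⟩
  · rw [Polynomial.degree_lt_iff_coeff_zero]
    intro m hm
    rw [Polynomial.finsetSum_coeff]
    refine Finset.sum_eq_zero fun k hk => ?_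
    rw [Finset.mem_range] at hk
    rw [Polynomial.coeff_C_mul]
    have h1 : ((Polynomial.X - Polynomial.C (a : ℂ)) ^ k).natDegree < m := by
      rw [Polynomial.natDegree_pow, Polynomial.natDegree_X_sub_C]
      omega
    rw [Polynomial.coeff_eq_zero_of_natDegree_lt h1, mul_zero]
  · have h1 := taylor_mean_remainder_bound (f := f) (a := a) (b := a + l) (C := D) (n := n) (by linarith)
      (by exact_mod_cast hf.contDiffOn) hy (fun z hz => by
        rw [iteratedDerivWithin_eq_iteratedDeriv hu (by exact_mod_cast hf.contDiffAt) hz]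
        exact hD z hz)
    have h2 : (∑ k ∈ Finset.range (n + 1), Polynomial.C ((((k ! : ℕ) : ℝ)⁻¹ : ℝ) * iteratedDerivWithin k f s a) *
        (Polynomial.X - Polynomial.C (a : ℂ)) ^ k).eval (y : ℂ) = taylorWithinEval f n s a y := by
      rw [taylor_within_apply, Polynomial.eval_finsetSum]
      refine Finset.sum_congr rfl fun k _ => ?_
      simp only [Polynomial.eval_mul, Polynomial.eval_C, Polynomial.eval_pow, Polynomial.eval_sub,
        Polynomial.eval_X, Complex.real_smul]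
      push_cast
      ring
    rw [h2]
    refine h1.trans ?_
    have h3 : (y - a) ^ (n + 1) ≤ l ^ (n + 1) := pow_le_pow_left₀ (by linarith [hy.1]) (by linarith [hy.2]) _
    gcongr

/-- Cauchy–Schwarz on an interval -/
lemma cs {g : ℝ → ℂ} (hg : Continuous g) {a l : ℝ} (hl : 0 < l) :
    (∫ t in a..(a + l), ‖g t‖) ^ 2 ≤ l * ∫ t in a..(a + l), ‖g t‖ ^ 2 := by
  set I1 := ∫ t in a..(a + l), ‖g t‖ with hI1
  set I2 := ∫ t in a..(a + l), ‖g t‖ ^ 2 with hI2
  have i1 : IntervalIntegrable (fun t => ‖g t‖) volume a (a + l) := hg.norm.intervalIntegrable _ _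
  have i2 : IntervalIntegrable (fun t => ‖g t‖ ^ 2) volume a (a + l) := (hg.norm.pow 2).intervalIntegrable _ _
  have h : 0 ≤ ∫ t in a..(a + l), (‖g t‖ - I1 / l) ^ 2 :=
    intervalIntegral.integral_nonneg (by linarith) fun t _ => sq_nonneg _
  have e : ∫ t in a..(a + l), (‖g t‖ - I1 / l) ^ 2 = I2 - 2 * (I1 / l) * I1 + l * (I1 / l) ^ 2 := by
    have e1 : ∀ t : ℝ, (‖g t‖ - I1 / l) ^ 2 = (‖g t‖ ^ 2 - (2 * (I1 / l)) * ‖g t‖) + (I1 / l) ^ 2 := fun t => by ring
    simp_rw [e1]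
    rw [intervalIntegral.integral_add (i2.sub (i1.const_mul _)) intervalIntegrable_const,
      intervalIntegral.integral_sub i2 (i1.const_mul _), intervalIntegral.integral_const_mul,
      intervalIntegral.integral_const]
    simp
    rfl
  rw [e] at h
  have h2 : I2 - 2 * (I1 / l) * I1 + l * (I1 / l) ^ 2 = (l * I2 - I1 ^ 2) / l := by
    field_simp; ring
  rw [h2] at h
  have h3 : 0 ≤ l * I2 - I1 ^ 2 := by
    have := mul_nonneg h hl.le
    rwa [div_mul_cancel₀ _ hl.ne'] at this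
  linarith

/-- pointwise bound from mean square bounds -/
lemma sobolev {g g' : ℝ → ℂ} (hd : ∀ t, HasDerivAt g (g' t) t) (hc : Continuous g') {a l : ℝ} (hl : 0 < l) {y : ℝ}
    (hy : y ∈ Icc a (a + l)) :
    ‖g y‖ ^ 2 ≤ 2 / l * (∫ t in a..(a + l), ‖g t‖ ^ 2) + 2 * l * ∫ t in a..(a + l), ‖g' t‖ ^ 2 := by
  have hg : Continuous g := continuous_iff_continuousAt.2 fun t => (hd t).continuousAt
  have hle : a ≤ a + l := by linarith
  have hcs := cs hc (a := a) hl
  have h1 : ∀ t ∈ Icc a (a + l), ‖g y‖ ^ 2 ≤ 2 * ‖g t‖ ^ 2 + 2 * (l * ∫ t in a..(a + l), ‖g' t‖ ^ 2) := by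
    intro t ht
    have h2 : g y - g t = ∫ r in t..y, g' r :=
      (intervalIntegral.integral_eq_sub_of_hasDerivAt (fun r _ => hd r) (hc.intervalIntegrable _ _)).symm
    have h3 : ‖∫ r in t..y, g' r‖ ≤ ∫ r in a..(a + l), ‖g' r‖ := by
      rw [intervalIntegral.integral_of_le hle, intervalIntegral.norm_intervalIntegral_eq]
      refine (norm_integral_le_integral_norm _).trans ?_
      refine setIntegral_mono_set (((hc.norm).intervalIntegrable _ _).1) (Eventually.of_forall fun r => norm_nonneg _)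
        (LE.le.eventuallyLE ?_)
      rw [uIoc]
      exact Ioc_subset_Ioc (le_min ht.1 hy.1) (max_le ht.2 hy.2)
    have h4 : ‖g y‖ ≤ ‖g t‖ + ∫ r in a..(a + l), ‖g' r‖ := by
      have : g y = g t + ∫ r in t..y, g' r := by rw [← h2]; ring
      rw [this]
      exact (norm_add_le _ _).trans (by gcongr)
    have h5 : 0 ≤ ∫ r in a..(a + l), ‖g' r‖ := intervalIntegral.integral_nonneg hle fun _ _ => norm_nonneg _
    calc ‖g y‖ ^ 2 ≤ (‖g t‖ + ∫ r in a..(a + l), ‖g' r‖) ^ 2 := by gcongr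
      _ ≤ 2 * ‖g t‖ ^ 2 + 2 * (∫ r in a..(a + l), ‖g' r‖) ^ 2 := by
          nlinarith [sq_nonneg (‖g t‖ - ∫ r in a..(a + l), ‖g' r‖)]
      _ ≤ _ := by gcongr
  have i1 : IntervalIntegrable (fun t => 2 * ‖g t‖ ^ 2 + 2 * (l * ∫ t in a..(a + l), ‖g' t‖ ^ 2)) volume a (a + l) :=
    (by fun_prop : Continuous fun t => 2 * ‖g t‖ ^ 2 + 2 * (l * ∫ t in a..(a + l), ‖g' t‖ ^ 2)).intervalIntegrable _ _
  have h2 := intervalIntegral.integral_mono_on hle intervalIntegrable_const i1 h1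
  rw [intervalIntegral.integral_const, intervalIntegral.integral_add
    ((by fun_prop : Continuous fun t => 2 * ‖g t‖ ^ 2).intervalIntegrable _ _) intervalIntegrable_const,
    intervalIntegral.integral_const_mul, intervalIntegral.integral_const, smul_eq_mul, smul_eq_mul,
    add_sub_cancel_left] at h2
  have h3 : ‖g y‖ ^ 2 ≤ (2 * (∫ t in a..(a + l), ‖g t‖ ^ 2) +
      l * (2 * (l * ∫ t in a..(a + l), ‖g' t‖ ^ 2))) / l := by
    rw [le_div_iff₀ hl]; linarith
  refine h3.trans (le_of_eq ?_)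
  field_simp

/-- the choice of the degree -/
lemma choose_n (b γ : ℝ) (hb : 0 < b) (hγ : 0 < γ) : ∃ n : ℕ,
    ((8 * (n + 2) / γ) ^ n / n.factorial + 1) * (4 * (1 + b) * b ^ (n + 1) / n.factorial) ≤ 1 / 2 := by
  have h1 := FloorSemiring.tendsto_pow_div_factorial_atTop (8 * Real.exp 1 * b / γ)
  have h2 := FloorSemiring.tendsto_pow_div_factorial_atTop b
  have h3 : Tendsto (fun n : ℕ => 4 * (1 + b) * b * (Real.exp 2 * ((8 * Real.exp 1 * b / γ) ^ n / n.factorial) +
      b ^ n / n.factorial)) atTop (𝓝 0) := by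
    have := ((h1.const_mul (Real.exp 2)).add h2).const_mul (4 * (1 + b) * b)
    simpa using this
  obtain ⟨n, hn⟩ := (h3.eventually (eventually_le_nhds (by norm_num : (0:ℝ) < 1 / 2))).exists
  refine ⟨n, le_trans ?_ hn⟩
  have hf : (0:ℝ) < n.factorial := by exact_mod_cast Nat.factorial_pos n
  have h4 : ((n : ℝ) + 2) ^ n / n.factorial ≤ Real.exp (n + 2) := Real.pow_div_factorial_le_exp _ (by positivity) n
  have h5 : (8 * ((n:ℝ) + 2) / γ) ^ n / n.factorial ≤ (8 / γ) ^ n * Real.exp (n + 2) := by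
    have e : (8 * ((n:ℝ) + 2) / γ) ^ n / n.factorial = (8 / γ) ^ n * (((n:ℝ) + 2) ^ n / n.factorial) := by
      rw [show 8 * ((n:ℝ) + 2) / γ = (8 / γ) * (n + 2) by ring, mul_pow]; ring
    rw [e]
    gcongr
  have h6 : Real.exp ((n:ℝ) + 2) = Real.exp 1 ^ n * Real.exp 2 := by
    rw [Real.exp_add, ← Real.exp_nat_mul, mul_one]
  have h7 : 0 ≤ 4 * (1 + b) * b ^ (n + 1) / n.factorial := by positivity
  calc _ ≤ ((8 / γ) ^ n * Real.exp (n + 2) + 1) * (4 * (1 + b) * b ^ (n + 1) / n.factorial) := by gcongr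
    _ = _ := by
        rw [h6, show 8 * Real.exp 1 * b / γ = (8 / γ) * (Real.exp 1 * b) by ring, mul_pow, mul_pow, pow_succ]
        ring

/-- **The local inequality.** -/
theorem local_ineq (b γ : ℝ) (hb : 0 < b) (hγ : 0 < γ) : ∃ (n : ℕ) (K : ℝ), 0 < K ∧
    ∀ f : ℝ → ℂ, (∀ j : ℕ, ContDiff ℝ j f) → ∀ a l : ℝ, 0 < l → ∀ E : Set ℝ, MeasurableSet E → E ⊆ Icc a (a + l) →
      ENNReal.ofReal (γ * l) ≤ volume E →
      (∫ t in a..(a + l), ‖iteratedDeriv (n + 1) f t‖ ^ 2 ≤ 8 * (b / l) ^ (2 * (n + 1)) * ∫ t in a..(a + l), ‖f t‖ ^ 2) →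
      (∫ t in a..(a + l), ‖iteratedDeriv (n + 2) f t‖ ^ 2 ≤ 8 * (b / l) ^ (2 * (n + 2)) * ∫ t in a..(a + l), ‖f t‖ ^ 2) →
      ∫ t in a..(a + l), ‖f t‖ ^ 2 ≤ K * ∫ t in E, ‖f t‖ ^ 2 := by
  obtain ⟨n, hn⟩ := choose_n b γ hb hγ
  set W : ℝ := (8 * (n + 2) / γ) ^ n / n.factorial with hW
  have hW0 : 0 < W := by positivity
  refine ⟨n, 8 * W ^ 2 / γ, by positivity, fun f hf a l hl E hE hEI hvol g1 g2 => ?_⟩
  set m : ℝ := ∫ t in a..(a + l), ‖f t‖ ^ 2 with hm
  set e : ℝ := ∫ t in E, ‖f t‖ ^ 2 with he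
  have hle : a ≤ a + l := by linarith
  have hfc : Continuous f := (hf 0).continuous
  have hm0 : 0 ≤ m := intervalIntegral.integral_nonneg hle fun _ _ => by positivity
  have he0 : 0 ≤ e := integral_nonneg fun _ => by positivity
  have hEi : IntegrableOn (fun t => ‖f t‖ ^ 2) E :=
    ((hfc.norm.pow 2).continuousOn.integrableOn_compact isCompact_Icc).mono_set hEI
  suffices H : ∀ η : ℝ, 0 < η → m ≤ 8 * W ^ 2 / γ * (e + η) by
    refine le_of_forall_pos_le_add fun η hη => ?_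
    have hK : 0 < 8 * W ^ 2 / γ := by positivity
    have := H (η / (8 * W ^ 2 / γ)) (by positivity)
    rw [mul_add, mul_div_cancel₀ _ hK.ne'] at this
    exact this
  intro η hη
  -- the derivative of order `n + 1`
  set μ : ℝ := √(m / l) with hμ
  have hμ0 : 0 ≤ μ := Real.sqrt_nonneg _
  have hμ2 : μ ^ 2 = m / l := Real.sq_sqrt (by positivity)
  set D : ℝ := 4 * (1 + b) * (b / l) ^ (n + 1) * μ with hDd
  have hD0 : 0 ≤ D := by positivity
  have hder : ∀ t, HasDerivAt (iteratedDeriv (n + 1) f) (iteratedDeriv (n + 2) f t) t := by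
    intro t
    have h1 : Differentiable ℝ (iteratedDeriv (n + 1) f) :=
      (hf (n + 2)).differentiable_iteratedDeriv (n + 1) (by exact_mod_cast Nat.lt_succ_self (n + 1))
    have h2 : iteratedDeriv (n + 2) f = deriv (iteratedDeriv (n + 1) f) := iteratedDeriv_succ
    rw [h2]
    exact (h1 t).hasDerivAt
  have hcd : Continuous (iteratedDeriv (n + 2) f) :=
    (hf (n + 2)).continuous_iteratedDeriv (n + 2) (by exact_mod_cast le_rfl)
  have hDb : ∀ y ∈ Icc a (a + l), ‖iteratedDeriv (n + 1) f y‖ ≤ D := by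
    intro y hy
    have h1 := sobolev hder hcd hl hy
    refine le_of_sq_le_sq ?_ hD0
    have hbl : 0 ≤ b / l := by positivity
    calc ‖iteratedDeriv (n + 1) f y‖ ^ 2 ≤ 2 / l * (8 * (b / l) ^ (2 * (n + 1)) * m) +
          2 * l * (8 * (b / l) ^ (2 * (n + 2)) * m) := h1.trans (by gcongr)
      _ = 16 * (b / l) ^ (2 * (n + 1)) * (1 + b ^ 2) * (m / l) := by
          have e1 : (b / l) ^ (2 * (n + 2)) = (b / l) ^ (2 * (n + 1)) * (b ^ 2 / l ^ 2) := by
            rw [← div_pow, ← pow_add]; congr 1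
          rw [e1]
          field_simp
          ring
      _ ≤ 16 * (b / l) ^ (2 * (n + 1)) * (1 + b) ^ 2 * (m / l) := by
          gcongr
          nlinarith
      _ = D ^ 2 := by
          rw [hDd, mul_pow, mul_pow, mul_pow, hμ2, ← pow_mul, mul_comm (n + 1) 2]
          ring
  obtain ⟨Q, hQ, hQf⟩ := taylor_poly (hf (n + 1)) hl hDb
  set R : ℝ := D * l ^ (n + 1) / n.factorial with hR
  have hR0 : 0 ≤ R := by positivity
  have hRμ : R = 4 * (1 + b) * b ^ (n + 1) / n.factorial * μ := by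
    rw [hR, hDd, div_pow]
    field_simp
  -- the set of small values
  set lam : ℝ := 2 / (γ * l) * (e + η) with hlam
  have hlam0 : 0 < lam := by positivity
  set E' : Set ℝ := E ∩ {t | ‖f t‖ ^ 2 < lam} with hE'
  have hE'm : MeasurableSet E' := hE.inter (measurableSet_lt (hfc.norm.pow 2).measurable measurable_const)
  have hmark : volume (E ∩ {t | lam ≤ ‖f t‖ ^ 2}) ≤ ENNReal.ofReal (γ * l / 2) := by
    have h1 := mul_meas_ge_le_integral_of_nonneg (μ := volume.restrict E) (f := fun t => ‖f t‖ ^ 2)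
      (Eventually.of_forall fun t => by positivity) hEi lam
    have hms : MeasurableSet {t | lam ≤ ‖f t‖ ^ 2} := measurableSet_le measurable_const (hfc.norm.pow 2).measurable
    rw [measureReal_def, Measure.restrict_apply hms] at h1
    have hfin : volume ({t | lam ≤ ‖f t‖ ^ 2} ∩ E) ≠ ⊤ :=
      ne_top_of_le_ne_top (by rw [Real.volume_Icc]; exact ENNReal.ofReal_ne_top)
        (measure_mono (inter_subset_right.trans hEI))
    rw [inter_comm, ← ENNReal.ofReal_toReal hfin]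
    refine ENNReal.ofReal_le_ofReal ?_
    have h2 : lam * (volume ({t | lam ≤ ‖f t‖ ^ 2} ∩ E)).toReal ≤ lam * (γ * l / 2) := by
      refine h1.trans ?_
      rw [← he, hlam]
      have : 2 / (γ * l) * (e + η) * (γ * l / 2) = e + η := by field_simp
      rw [this]; linarith
    exact le_of_mul_le_mul_left h2 hlam0
  have hE'v : ENNReal.ofReal (γ * l / 2) ≤ volume E' := by
    have h1 : volume E ≤ volume E' + volume (E ∩ {t | lam ≤ ‖f t‖ ^ 2}) := by
      refine (measure_mono ?_).trans (measure_union_le _ _)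
      intro t ht
      rcases lt_or_ge (‖f t‖ ^ 2) lam with h | h
      · left; exact ⟨ht, h⟩
      · right; exact ⟨ht, h⟩
    by_contra hcon
    push Not at hcon
    have h2 : volume E < ENNReal.ofReal (γ * l / 2) + ENNReal.ofReal (γ * l / 2) :=
      h1.trans_lt (ENNReal.add_lt_add_of_lt_of_le (ne_top_of_le_ne_top ENNReal.ofReal_ne_top hmark) hcon hmark)
    rw [← ENNReal.ofReal_add (by positivity) (by positivity), add_halves] at h2
    exact absurd hvol (not_le.2 h2)
  -- the nodes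
  set d : ℝ := γ * l / (4 * (n + 2)) with hd
  have hd0 : 0 < d := by positivity
  obtain ⟨x, hx, hxs⟩ := nodes hd0 n E' a (a + l) (fun t ht => hEI ht.1) hE'm (by
    refine lt_of_lt_of_le ?_ hE'v
    rw [ENNReal.ofReal_lt_ofReal_iff (by positivity), hd]
    have : 2 * (γ * l / (4 * (n + 2))) * n = γ * l / 2 * (n / (n + 2)) := by field_simp; ring
    rw [this]
    have h1 : (n:ℝ) / (n + 2) < 1 := by
      rw [div_lt_one (by positivity)]; linarith
    have h2 : 0 < γ * l / 2 := by positivity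
    nlinarith)
  have hnode : ∀ i ≤ n, ‖Q.eval (x i : ℂ)‖ ≤ √lam + R := by
    intro i hi
    have h1 := hx i hi
    have h2 := hQf (x i) (hEI h1.1)
    have h3 : ‖f (x i)‖ ≤ √lam := Real.le_sqrt_of_sq_le h1.2.le
    have h4 := norm_sub_le (f (x i)) (f (x i) - Q.eval (x i : ℂ))
    rw [sub_sub_cancel] at h4
    linarith
  have hWd : (2 * l / d) ^ n / n.factorial = W := by
    rw [hW, hd]
    congr 2
    field_simp
    ring
  set Bd : ℝ := W * √lam + (W + 1) * R with hBd
  have hBd0 : 0 ≤ Bd := by positivity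
  have hfb : ∀ y ∈ Icc a (a + l), ‖f y‖ ≤ Bd := by
    intro y hy
    have h1 := remez_poly hd0 hl.le (fun i hi => hEI (hx i hi).1) hxs Q hQ hnode hy
    rw [hWd] at h1
    have h2 := hQf y hy
    have h3 := norm_add_le (f y - Q.eval (y : ℂ)) (Q.eval (y : ℂ))
    rw [sub_add_cancel] at h3
    rw [hBd]
    linarith
  have hmB : m ≤ l * Bd ^ 2 := by
    have h1 : m ≤ ∫ t in a..(a + l), Bd ^ 2 := by
      refine intervalIntegral.integral_mono_on hle ((hfc.norm.pow 2).intervalIntegrable _ _)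
        intervalIntegrable_const fun t ht => ?_
      have := hfb t ht
      gcongr
    rw [intervalIntegral.integral_const, smul_eq_mul, add_sub_cancel_left] at h1
    exact h1
  have hμB : μ ≤ Bd := by
    refine Real.sqrt_le_iff.2 ⟨hBd0, ?_⟩
    rw [div_le_iff₀ hl]; linarith
  have h5 : (W + 1) * R ≤ 1 / 2 * μ := by
    rw [hRμ, ← mul_assoc]
    exact mul_le_mul_of_nonneg_right hn hμ0
  have h6 : μ ≤ 2 * W * √lam := by
    rw [hBd] at hμB
    linarith
  have h7 : μ ^ 2 ≤ (2 * W * √lam) ^ 2 := pow_le_pow_left₀ hμ0 h6 2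
  rw [hμ2, mul_pow, Real.sq_sqrt hlam0.le, div_le_iff₀ hl] at h7
  refine h7.trans (le_of_eq ?_)
  rw [hlam]
  field_simp
  ring

end

end Pool.Agent.J4.H63.TS
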