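import Pool.Agent.J4.H63.TS.K3

set_option autoImplicit false

/-! Summation over the intervals of a partition. -/

namespace Pool.Agent.J4.H63.TS

open MeasureTheory Set Filter Topology

noncomputable section

/-- the inequality on one interval, with the derivatives as error terms -/
lemma one_interval {b γ : ℝ} (hb : 0 < b) {n : ℕ} {K : ℝ} (hK : 0 < K)
    (H : ∀ f : ℝ → ℂ, (∀ j : ℕ, ContDiff ℝ j f) → ∀ a l : ℝ, 0 < l → ∀ E : Set ℝ, MeasurableSet E → E ⊆ Icc a (a + l) →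
      ENNReal.ofReal (γ * l) ≤ volume E →
      (∫ t in a..(a + l), ‖iteratedDeriv (n + 1) f t‖ ^ 2 ≤ 8 * (b / l) ^ (2 * (n + 1)) * ∫ t in a..(a + l), ‖f t‖ ^ 2) →
      (∫ t in a..(a + l), ‖iteratedDeriv (n + 2) f t‖ ^ 2 ≤ 8 * (b / l) ^ (2 * (n + 2)) * ∫ t in a..(a + l), ‖f t‖ ^ 2) →
      ∫ t in a..(a + l), ‖f t‖ ^ 2 ≤ K * ∫ t in E, ‖f t‖ ^ 2)
    {f : ℝ → ℂ} (hf : ∀ j : ℕ, ContDiff ℝ j f) {a l : ℝ} (hl : 0 < l) {E : Set ℝ} (hE : MeasurableSet E)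
    (hEI : E ⊆ Icc a (a + l)) (hv : ENNReal.ofReal (γ * l) ≤ volume E) :
    ∫ t in a..(a + l), ‖f t‖ ^ 2 ≤ K * (∫ t in E, ‖f t‖ ^ 2) +
      (8 * (b / l) ^ (2 * (n + 1)))⁻¹ * (∫ t in a..(a + l), ‖iteratedDeriv (n + 1) f t‖ ^ 2) +
      (8 * (b / l) ^ (2 * (n + 2)))⁻¹ * ∫ t in a..(a + l), ‖iteratedDeriv (n + 2) f t‖ ^ 2 := by
  have hle : a ≤ a + l := by linarith
  have q0 : 0 ≤ K * ∫ t in E, ‖f t‖ ^ 2 := mul_nonneg hK.le (integral_nonneg fun _ => by positivity)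
  have c1 : 0 < 8 * (b / l) ^ (2 * (n + 1)) := by positivity
  have c2 : 0 < 8 * (b / l) ^ (2 * (n + 2)) := by positivity
  have q1 : 0 ≤ (8 * (b / l) ^ (2 * (n + 1)))⁻¹ * (∫ t in a..(a + l), ‖iteratedDeriv (n + 1) f t‖ ^ 2) :=
    mul_nonneg (inv_nonneg.2 c1.le) (intervalIntegral.integral_nonneg hle fun _ _ => by positivity)
  have q2 : 0 ≤ (8 * (b / l) ^ (2 * (n + 2)))⁻¹ * (∫ t in a..(a + l), ‖iteratedDeriv (n + 2) f t‖ ^ 2) :=
    mul_nonneg (inv_nonneg.2 c2.le) (intervalIntegral.integral_nonneg hle fun _ _ => by positivity)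
  by_cases h1 : ∫ t in a..(a + l), ‖iteratedDeriv (n + 1) f t‖ ^ 2 ≤
      8 * (b / l) ^ (2 * (n + 1)) * ∫ t in a..(a + l), ‖f t‖ ^ 2
  · by_cases h2 : ∫ t in a..(a + l), ‖iteratedDeriv (n + 2) f t‖ ^ 2 ≤
      8 * (b / l) ^ (2 * (n + 2)) * ∫ t in a..(a + l), ‖f t‖ ^ 2
    · have := H f hf a l hl E hE hEI hv h1 h2
      linarith
    · push Not at h2
      have h3 : ∫ t in a..(a + l), ‖f t‖ ^ 2 ≤
          (8 * (b / l) ^ (2 * (n + 2)))⁻¹ * ∫ t in a..(a + l), ‖iteratedDeriv (n + 2) f t‖ ^ 2 := by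
        rw [inv_mul_eq_div, le_div_iff₀ c2]; linarith
      linarith
  · push Not at h1
    have h3 : ∫ t in a..(a + l), ‖f t‖ ^ 2 ≤
        (8 * (b / l) ^ (2 * (n + 1)))⁻¹ * ∫ t in a..(a + l), ‖iteratedDeriv (n + 1) f t‖ ^ 2 := by
      rw [inv_mul_eq_div, le_div_iff₀ c1]; linarith
    linarith

/-- summation -/
theorem all_intervals {b γ : ℝ} (hb : 0 < b) {n : ℕ} {K : ℝ} (hK : 0 < K)
    (H : ∀ f : ℝ → ℂ, (∀ j : ℕ, ContDiff ℝ j f) → ∀ a l : ℝ, 0 < l → ∀ E : Set ℝ, MeasurableSet E → E ⊆ Icc a (a + l) →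
      ENNReal.ofReal (γ * l) ≤ volume E →
      (∫ t in a..(a + l), ‖iteratedDeriv (n + 1) f t‖ ^ 2 ≤ 8 * (b / l) ^ (2 * (n + 1)) * ∫ t in a..(a + l), ‖f t‖ ^ 2) →
      (∫ t in a..(a + l), ‖iteratedDeriv (n + 2) f t‖ ^ 2 ≤ 8 * (b / l) ^ (2 * (n + 2)) * ∫ t in a..(a + l), ‖f t‖ ^ 2) →
      ∫ t in a..(a + l), ‖f t‖ ^ 2 ≤ K * ∫ t in E, ‖f t‖ ^ 2)
    {f : ℝ → ℂ} (hf : ∀ j : ℕ, ContDiff ℝ j f) {y l : ℝ} (hl : 0 < l) {E : Set ℝ} (hE : MeasurableSet E) (N : ℕ)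
    (hv : ∀ j < N, ENNReal.ofReal (γ * l) ≤ volume (E ∩ Icc (y + j * l) (y + j * l + l))) :
    ∫ t in y..(y + N * l), ‖f t‖ ^ 2 ≤ K * (∫ t in E ∩ Ioc y (y + N * l), ‖f t‖ ^ 2) +
      (8 * (b / l) ^ (2 * (n + 1)))⁻¹ * (∫ t in y..(y + N * l), ‖iteratedDeriv (n + 1) f t‖ ^ 2) +
      (8 * (b / l) ^ (2 * (n + 2)))⁻¹ * ∫ t in y..(y + N * l), ‖iteratedDeriv (n + 2) f t‖ ^ 2 := by
  have hfc : Continuous f := (hf 0).continuous
  have hc : ∀ m : ℕ, Continuous (fun t => ‖iteratedDeriv m f t‖ ^ 2) := fun m =>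
    ((hf m).continuous_iteratedDeriv m le_rfl).norm.pow 2
  have hcf : Continuous (fun t => ‖f t‖ ^ 2) := hfc.norm.pow 2
  induction N with
  | zero => simp
  | succ N ih =>
    have ih' := ih fun j hj => hv j (by omega)
    have e0 : y + ((N + 1 : ℕ) : ℝ) * l = y + N * l + l := by push_cast; ring
    rw [e0]
    have hNl : 0 ≤ (N:ℝ) * l := by positivity
    -- the last interval
    have hE1 : MeasurableSet (E ∩ Ioc (y + N * l) (y + N * l + l)) := hE.inter measurableSet_Ioc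
    have hv1 : ENNReal.ofReal (γ * l) ≤ volume (E ∩ Ioc (y + N * l) (y + N * l + l)) := by
      have h1 : volume (E ∩ Icc (y + N * l) (y + N * l + l)) ≤
          volume (E ∩ Ioc (y + N * l) (y + N * l + l)) + volume {y + (N:ℝ) * l} := by
        refine (measure_mono ?_).trans (measure_union_le _ _)
        rintro t ⟨h1, h2, h3⟩
        rcases eq_or_lt_of_le h2 with h | h
        · right; exact h.symm
        · left; exact ⟨h1, h, h3⟩
      rw [Real.volume_singleton, add_zero] at h1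
      exact (hv N (by omega)).trans h1
    have h1 := one_interval hb hK H hf hl hE1 (inter_subset_right.trans Ioc_subset_Icc_self) hv1
    have add : ∀ g : ℝ → ℝ, Continuous g → ∫ t in y..(y + N * l + l), g t =
        (∫ t in y..(y + N * l), g t) + ∫ t in (y + N * l)..(y + N * l + l), g t := fun g hg =>
      (intervalIntegral.integral_add_adjacent_intervals (hg.intervalIntegrable _ _) (hg.intervalIntegrable _ _)).symm
    have addE : ∫ t in E ∩ Ioc y (y + N * l + l), ‖f t‖ ^ 2 =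
        (∫ t in E ∩ Ioc y (y + N * l), ‖f t‖ ^ 2) + ∫ t in E ∩ Ioc (y + N * l) (y + N * l + l), ‖f t‖ ^ 2 := by
      have e1 : E ∩ Ioc y (y + N * l + l) = (E ∩ Ioc y (y + N * l)) ∪ (E ∩ Ioc (y + N * l) (y + N * l + l)) := by
        rw [← inter_union_distrib_left, Ioc_union_Ioc_eq_Ioc (by linarith) (by linarith)]
      rw [e1]
      refine setIntegral_union ?_ hE1 ?_ ?_
      · rw [Set.disjoint_left]
        rintro t ⟨_, _, h2⟩ ⟨_, h3, _⟩
        linarith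
      · exact (hcf.continuousOn.integrableOn_compact isCompact_Icc).mono_set (inter_subset_right.trans Ioc_subset_Icc_self)
      · exact (hcf.continuousOn.integrableOn_compact isCompact_Icc).mono_set (inter_subset_right.trans Ioc_subset_Icc_self)
    rw [add _ hcf, add _ (hc (n + 1)), add _ (hc (n + 2)), addE]
    linarith

end

end Pool.Agent.J4.H63.TS
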