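import Pool.Agent.J4.H63.TS.K1
import Pool.Agent.J4.H63.TS.K4

set_option autoImplicit false

/-! The powers of zeta. -/

namespace Pool.Agent.J4.H63.TS

open Complex MeasureTheory Filter Topology Set Pool.Agent.TH535.SM Pool.Agent.J4.H63.SA
open scoped FourierTransform

noncomputable section

/-- `ζ^k`, regularised and translated -/
def Gh (k u : ℕ) (α : ℝ) (s : ℂ) : ℂ := H k u (s + α * I)

lemma Gh_PG (k : ℕ) {u : ℕ} (hu : 1 ≤ u) (α : ℝ) : PG (Gh k u α) u := PG_shift (H_PG k hu) α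

lemma Gh_line (k u : ℕ) (α T t : ℝ) :
    Fn (Gh k u α) T 0 t = (v T t : ℂ) * H k u (1 / 2 + ((t + α : ℝ) : ℂ) * I) := by
  rw [Fn_zero]
  unfold Gh
  congr 2
  push_cast
  ring

lemma F_le (k u : ℕ) (α : ℝ) {T : ℝ} (hT : 0 ≤ T) (t : ℝ) : ‖Fn (Gh k u α) T 0 t‖ ^ 2 ≤ v T t * Z k (t + α) := by
  rw [Gh_line, norm_mul, Complex.norm_real, Real.norm_of_nonneg (v_nonneg hT t), mul_pow]
  have h1 := H_line (k := k) (u := u) (t + α)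
  have h2 : ‖H k u (1 / 2 + ((t + α : ℝ) : ℂ) * I)‖ ^ 2 ≤ Z k (t + α) := by
    unfold Z
    calc _ ≤ (‖riemannZeta (1 / 2 + ((t + α : ℝ) : ℂ) * I)‖ ^ k) ^ 2 := by gcongr
      _ = _ := by rw [← pow_mul, mul_comm k 2]
  have h3 := v_nonneg hT t
  have h4 := v_le_one hT t
  calc _ ≤ v T t ^ 2 * Z k (t + α) := by gcongr
    _ ≤ _ := by
        refine mul_le_mul_of_nonneg_right ?_ (Z_nonneg k _)
        nlinarith

lemma H_ge (k u : ℕ) : ∃ t0 : ℝ, 0 ≤ t0 ∧ ∀ t : ℝ, t0 ≤ t → Z k t / 4 ≤ ‖H k u (1 / 2 + t * I)‖ ^ 2 := by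
  obtain ⟨C, hC, hb⟩ := H_line_close k u
  refine ⟨2 * C, by positivity, fun t ht => ?_⟩
  have ht0 : 0 ≤ t := by linarith
  have h1 := hb t
  rw [abs_of_nonneg ht0] at h1
  have h2 : C / (1 + t) ≤ 1 / 2 := by
    rw [div_le_iff₀ (by linarith)]; linarith
  obtain ⟨z, hz⟩ : ∃ z, z = ‖riemannZeta (1 / 2 + t * I)‖ ^ k := ⟨_, rfl⟩
  have hz0 : 0 ≤ z := by rw [hz]; positivity
  have h3 : z - ‖H k u (1 / 2 + t * I)‖ ≤ 1 / 2 * z := by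
    have h4 := norm_sub_norm_le (riemannZeta (1 / 2 + t * I) ^ k) (H k u (1 / 2 + t * I))
    rw [norm_pow, ← hz] at h4
    rw [norm_sub_rev] at h1
    rw [← hz] at h1
    have h5 : C / (1 + t) * z ≤ 1 / 2 * z := by gcongr
    linarith
  have h6 : z / 2 ≤ ‖H k u (1 / 2 + t * I)‖ := by linarith
  have h7 : Z k t = z ^ 2 := by
    rw [hz, ← pow_mul, mul_comm k 2]
    rfl
  rw [h7]
  calc z ^ 2 / 4 = (z / 2) ^ 2 := by ring
    _ ≤ _ := by gcongr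

lemma Gh_sq (k : ℕ) {u : ℕ} (hu : 1 ≤ u) : ∃ C : ℝ, 1 ≤ C ∧ ∀ T : ℝ, 1 ≤ T → ∀ α : ℝ,
    (∫ t, ‖Fn (Gh k u α) T u t‖ ^ 2 ≤ C * (1 + T + |α|) ^ (2 * (u * k) + 1)) ∧
    (∫ t, ‖Fn (Gh k u α) T (-u) t‖ ^ 2 ≤ C * (1 + T + |α|) ^ (2 * (u * k) + 1)) := by
  obtain ⟨C1, hC1, hb1⟩ := H_right k hu
  obtain ⟨C2, hC2, hb2⟩ := H_left k hu
  obtain ⟨D, hD, hd⟩ := v_pol (2 * (u * k))
  have hu0 : (0:ℝ) ≤ u := Nat.cast_nonneg u
  set C := C1 + C2 with hC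
  have hC0 : 1 ≤ C := by rw [hC]; linarith
  refine ⟨Real.exp (2 * (u:ℝ) ^ 2) * C ^ 2 * D * 9, ?_, fun T hT α => ?_⟩
  · have h1 : (1:ℝ) ≤ Real.exp (2 * (u:ℝ) ^ 2) := Real.one_le_exp (by positivity)
    have h2 := one_le_mul_of_one_le_of_one_le (one_le_mul_of_one_le_of_one_le h1 (one_le_pow₀ hC0 (n := 2))) hD
    linarith
  have hα := abs_nonneg α
  have key : ∀ r : ℝ, -(u:ℝ) ≤ r → r ≤ u → r ^ 2 = (u:ℝ) ^ 2 →
      (∀ t : ℝ, ‖H k u (((1 / 2 + r : ℝ) : ℂ) + t * I)‖ ≤ C * (1 + |t|) ^ (u * k)) →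
      ∫ t, ‖Fn (Gh k u α) T r t‖ ^ 2 ≤ Real.exp (2 * (u:ℝ) ^ 2) * C ^ 2 * D * 9 * (1 + T + |α|) ^ (2 * (u * k) + 1) := by
    intro r h1 h2 h3 h4
    have hle : ∀ t, ‖Fn (Gh k u α) T r t‖ ^ 2 ≤
        Real.exp (2 * (u:ℝ) ^ 2) * C ^ 2 * D * (1 + T + |α|) ^ (2 * (u * k)) * gm T t := by
      intro t
      have h5 := Fn_norm (G := Gh k u α) hT r t
      have h6 : ‖Gh k u α (((1 / 2 + r : ℝ) : ℂ) + t * I)‖ ≤ C * (1 + |t + α|) ^ (u * k) := by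
        have := h4 (t + α)
        unfold Gh
        have e : ((1 / 2 + r : ℝ) : ℂ) + t * I + α * I = ((1 / 2 + r : ℝ) : ℂ) + ((t + α : ℝ) : ℂ) * I := by
          push_cast; ring
        rw [e]
        exact this
      have hv0 := v_nonneg (T := T) (by linarith) t
      have hv1 := v_le_one (T := T) (by linarith) t
      have h7 := hd T hT α t
      have hsq : v T t ^ 2 ≤ v T t := by nlinarith
      have e1 : Real.exp (2 * (u:ℝ) ^ 2) = Real.exp (r ^ 2) ^ 2 := by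
        rw [← Real.exp_nat_mul, h3]; congr 1
      calc _ ≤ (Real.exp (r ^ 2) * v T t * (C * (1 + |t + α|) ^ (u * k))) ^ 2 := by
            gcongr
            exact h5.trans (by gcongr)
        _ = Real.exp (2 * (u:ℝ) ^ 2) * C ^ 2 * (v T t ^ 2 * (1 + |t + α|) ^ (2 * (u * k))) := by
            rw [e1, mul_comm 2 (u * k), pow_mul]; ring
        _ ≤ Real.exp (2 * (u:ℝ) ^ 2) * C ^ 2 * (v T t * (1 + |t + α|) ^ (2 * (u * k))) := by gcongr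
        _ ≤ Real.exp (2 * (u:ℝ) ^ 2) * C ^ 2 * (D * (1 + T + |α|) ^ (2 * (u * k)) * gm T t) := by gcongr
        _ = _ := by ring
    calc _ ≤ ∫ t, Real.exp (2 * (u:ℝ) ^ 2) * C ^ 2 * D * (1 + T + |α|) ^ (2 * (u * k)) * gm T t :=
          integral_mono (Fn_dec (Gh_PG k hu α) hT h1 h2).sq ((gm_int T).const_mul _) hle
      _ = Real.exp (2 * (u:ℝ) ^ 2) * C ^ 2 * D * (1 + T + |α|) ^ (2 * (u * k)) * ∫ t, gm T t := integral_const_mul _ _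
      _ ≤ Real.exp (2 * (u:ℝ) ^ 2) * C ^ 2 * D * (1 + T + |α|) ^ (2 * (u * k)) * (9 * T) := by
          gcongr
          exact gm_val hT
      _ ≤ Real.exp (2 * (u:ℝ) ^ 2) * C ^ 2 * D * (1 + T + |α|) ^ (2 * (u * k)) * (9 * (1 + T + |α|)) := by
          gcongr
          linarith
      _ = _ := by rw [pow_succ (1 + T + |α|)]; ring
  constructor
  · refine key u (by linarith) le_rfl rfl fun t => (hb1 t).trans ?_
    have h1 : (1:ℝ) ≤ (1 + |t|) ^ (u * k) := one_le_pow₀ (by linarith [abs_nonneg t])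
    calc C1 ≤ C * 1 := by rw [hC]; linarith
      _ ≤ _ := by gcongr
  · refine key (-u) le_rfl (by linarith) (by ring) fun t => ?_
    have e : (1 / 2 + -(u:ℝ)) = 1 / 2 - u := by ring
    rw [e]
    refine (hb2 t).trans ?_
    gcongr
    rw [hC]; linarith

/-- the properties of the smoothed power of zeta -/
lemma F_props (k : ℕ) {u : ℕ} (hu : 1 ≤ u) {T : ℝ} (hT : 1 ≤ T) (α : ℝ) :
    Dec (Fn (Gh k u α) T 0) ∧ (∀ j : ℕ, ContDiff ℝ j (Fn (Gh k u α) T 0)) ∧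
    (∀ j : ℕ, Integrable (fun t => ‖iteratedDeriv j (Fn (Gh k u α) T 0) t‖ ^ 2)) ∧
    ∀ Λ : ℝ, 0 ≤ Λ → ∀ j : ℕ, ∫ t, ‖iteratedDeriv j (Fn (Gh k u α) T 0) t‖ ^ 2 ≤
      Λ ^ (2 * j) * (∫ t, ‖Fn (Gh k u α) T 0 t‖ ^ 2) + (2 * j).factorial * Real.exp (-(Λ * (2 * u - 1))) *
        ((∫ t, ‖Fn (Gh k u α) T u t‖ ^ 2) + ∫ t, ‖Fn (Gh k u α) T (-u) t‖ ^ 2) := by
  have hu0 : (0:ℝ) ≤ u := Nat.cast_nonneg u
  have hu1 : (1:ℝ) ≤ u := by exact_mod_cast hu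
  have hG := Gh_PG k hu α
  have d0 : Dec (Fn (Gh k u α) T 0) := Fn_dec hG hT (r := 0) (by linarith) hu0
  have dr : Dec (Fn (Gh k u α) T u) := Fn_dec hG hT (r := u) (by linarith) le_rfl
  have dl : Dec (Fn (Gh k u α) T (-u)) := Fn_dec hG hT (r := -u) le_rfl (by linarith)
  have h1 : ∀ w : ℝ, ‖𝓕 (Fn (Gh k u α) T 0) w‖ = Real.exp (-(2 * Real.pi * w * u)) * ‖𝓕 (Fn (Gh k u α) T u) w‖ := by
    intro w
    have h := Fn_shift hG hT (r1 := 0) (r2 := u) (by linarith) hu0 le_rfl w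
    have h1 : 𝓕 (Fn (Gh k u α) T 0) w = cexp (-(2 * Real.pi * w * (u:ℝ) : ℝ)) * 𝓕 (Fn (Gh k u α) T u) w := by
      rw [← h]; simp
    rw [h1, norm_mul, ← Complex.ofReal_neg, Complex.norm_exp_ofReal]
  have h2 : ∀ w : ℝ, ‖𝓕 (Fn (Gh k u α) T 0) w‖ = Real.exp (2 * Real.pi * w * u) * ‖𝓕 (Fn (Gh k u α) T (-u)) w‖ := by
    intro w
    have h := Fn_shift hG hT (r1 := -u) (r2 := 0) le_rfl (by linarith) hu0 w
    have h1 : 𝓕 (Fn (Gh k u α) T 0) w = cexp (-(2 * Real.pi * w * (-(u:ℝ)) : ℝ)) * 𝓕 (Fn (Gh k u α) T (-u)) w := by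
      rw [h]; simp
    rw [h1, norm_mul, ← Complex.ofReal_neg, Complex.norm_exp_ofReal]
    congr 2
    ring
  set B : ℝ := (∫ t, ‖Fn (Gh k u α) T u t‖) + ∫ t, ‖Fn (Gh k u α) T (-u) t‖ with hB
  have b1 : 0 ≤ ∫ t, ‖Fn (Gh k u α) T u t‖ := integral_nonneg fun _ => norm_nonneg _
  have b2 : 0 ≤ ∫ t, ‖Fn (Gh k u α) T (-u) t‖ := integral_nonneg fun _ => norm_nonneg _
  have hB0 : 0 ≤ B := by rw [hB]; linarith
  have hd : ∀ w : ℝ, ‖𝓕 (Fn (Gh k u α) T 0) w‖ ≤ B * Real.exp (-(2 * Real.pi * |w|)) := by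
    intro w
    have hpi := Real.pi_pos
    have hexp : Real.exp (-(2 * Real.pi * |w| * u)) ≤ Real.exp (-(2 * Real.pi * |w|)) := by
      refine Real.exp_le_exp.2 ?_
      have : 0 ≤ 2 * Real.pi * |w| := by positivity
      nlinarith
    rcases le_total 0 w with hw | hw
    · rw [h1]
      have e : 2 * Real.pi * w * u = 2 * Real.pi * |w| * u := by rw [abs_of_nonneg hw]
      rw [e, mul_comm B]
      have h3 := ft_norm_le (Fn (Gh k u α) T u) w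
      exact mul_le_mul hexp (h3.trans (by rw [hB]; linarith)) (norm_nonneg _) (Real.exp_pos _).le
    · rw [h2]
      have e : 2 * Real.pi * w * u = -(2 * Real.pi * |w| * u) := by rw [abs_of_nonpos hw]; ring
      rw [e, mul_comm B]
      have h3 := ft_norm_le (Fn (Gh k u α) T (-u)) w
      exact mul_le_mul hexp (h3.trans (by rw [hB]; linarith)) (norm_nonneg _) (Real.exp_pos _).le
  exact ⟨d0, fun j => smooth d0 hB0 hd j, fun j => (deriv_norm d0 hB0 hd j).1,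
    fun Λ hΛ j => bernstein d0 dr dl hB0 hd hu h1 h2 hΛ j⟩

/-- Bernstein's inequality for `ζ^k` -/
lemma bern_zeta (k : ℕ) {B : ℝ} (hB : 0 ≤ B) : ∃ u : ℕ, 1 ≤ u ∧ ∀ j : ℕ, ∃ C : ℝ, 0 ≤ C ∧ ∀ X : ℝ, 2 ≤ X →
    ∀ T α : ℝ, 1 ≤ T → 1 + T + |α| ≤ 4 * X →
      ∫ t, ‖iteratedDeriv j (Fn (Gh k u α) T 0) t‖ ^ 2 ≤
        ((k + 1) * Real.log X) ^ (2 * j) * (∫ t, ‖Fn (Gh k u α) T 0 t‖ ^ 2) + C * X ^ (-B) := by
  obtain ⟨u, hu⟩ := exists_nat_ge (B + k + 2)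
  have hk0 : (0:ℝ) ≤ k := Nat.cast_nonneg k
  have hu1 : 1 ≤ u := by
    have : (1:ℝ) ≤ u := by linarith
    exact_mod_cast this
  obtain ⟨C, hC, hb⟩ := Gh_sq k hu1
  refine ⟨u, hu1, fun j => ⟨(2 * j).factorial * (2 * (C * 4 ^ (2 * (u * k) + 1))), by positivity,
    fun X hX T α hT hTα => ?_⟩⟩
  have hX0 : 0 < X := by linarith
  have hL : 0 < Real.log X := Real.log_pos (by linarith)
  have hα := abs_nonneg α
  obtain ⟨-, -, -, h1⟩ := F_props k hu1 hT α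
  have h2 := h1 ((k + 1) * Real.log X) (by positivity) j
  obtain ⟨s1, s2⟩ := hb T hT α
  have h3 : C * (1 + T + |α|) ^ (2 * (u * k) + 1) ≤ C * 4 ^ (2 * (u * k) + 1) * X ^ ((2 * (u * k) + 1 : ℕ) : ℝ) := by
    rw [mul_assoc, Real.rpow_natCast, ← mul_pow]
    gcongr
  have h4 : Real.exp (-(((k:ℝ) + 1) * Real.log X * (2 * u - 1))) = X ^ (-(((k:ℝ) + 1) * (2 * u - 1))) := by
    rw [Real.rpow_def_of_pos hX0]
    congr 1; ring
  have h5 : X ^ (-(((k:ℝ) + 1) * (2 * u - 1))) * X ^ ((2 * (u * k) + 1 : ℕ) : ℝ) ≤ X ^ (-B) := by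
    rw [← Real.rpow_add hX0]
    refine Real.rpow_le_rpow_of_exponent_le (by linarith) ?_
    push_cast
    nlinarith
  refine h2.trans ?_
  rw [h4]
  have h6 : (∫ t, ‖Fn (Gh k u α) T u t‖ ^ 2) + ∫ t, ‖Fn (Gh k u α) T (-u) t‖ ^ 2 ≤
      2 * (C * 4 ^ (2 * (u * k) + 1) * X ^ ((2 * (u * k) + 1 : ℕ) : ℝ)) := by linarith
  have hx : 0 < X ^ (-(((k:ℝ) + 1) * (2 * u - 1))) := Real.rpow_pos_of_pos hX0 _
  have h7 : ((2 * j).factorial : ℝ) * X ^ (-(((k:ℝ) + 1) * (2 * u - 1))) *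
      ((∫ t, ‖Fn (Gh k u α) T u t‖ ^ 2) + ∫ t, ‖Fn (Gh k u α) T (-u) t‖ ^ 2) ≤
      (2 * j).factorial * (2 * (C * 4 ^ (2 * (u * k) + 1))) * X ^ (-B) := by
    calc _ ≤ ((2 * j).factorial : ℝ) * X ^ (-(((k:ℝ) + 1) * (2 * u - 1))) *
          (2 * (C * 4 ^ (2 * (u * k) + 1) * X ^ ((2 * (u * k) + 1 : ℕ) : ℝ))) := by gcongr
      _ = ((2 * j).factorial : ℝ) * (2 * (C * 4 ^ (2 * (u * k) + 1))) *
          (X ^ (-(((k:ℝ) + 1) * (2 * u - 1))) * X ^ ((2 * (u * k) + 1 : ℕ) : ℝ)) := by ring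
      _ ≤ _ := by gcongr
  linarith

/-- Gaussian integrals against `|ζ|^(2k)` -/
lemma gauss_Z (k : ℕ) : ∃ (C : ℝ) (p : ℕ), 1 ≤ C ∧ ∀ τ : ℝ, Integrable (fun t : ℝ => Real.exp (-(t - τ) ^ 2 / 4) * Z k t) ∧
    ∫ t : ℝ, Real.exp (-(t - τ) ^ 2 / 4) * Z k t ≤ C * (1 + |τ|) ^ p := by
  obtain ⟨C1, p, hC1, h1⟩ := Z_bd k
  obtain ⟨C2, hC2, h2⟩ := gauss_pt p
  have hpi := Real.pi_gt_three
  have hC0 : 1 ≤ C1 * C2 := one_le_mul_of_one_le_of_one_le hC1 hC2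
  have hpt : ∀ τ t : ℝ, Real.exp (-(t - τ) ^ 2 / 4) * Z k t ≤ C1 * C2 * (1 + |τ|) ^ p * (1 + (t - τ) ^ 2)⁻¹ := by
    intro τ t
    calc _ ≤ Real.exp (-(t - τ) ^ 2 / 4) * (C1 * (1 + |t|) ^ p) := by
          gcongr
          exact h1 t
      _ = C1 * (Real.exp (-(t - τ) ^ 2 / 4) * (1 + |t|) ^ p) := by ring
      _ ≤ C1 * (C2 * (1 + |τ|) ^ p * (1 + (t - τ) ^ 2)⁻¹) := by
          have := h2 τ t
          gcongr
      _ = _ := by ring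
  refine ⟨C1 * C2 * Real.pi, p, by nlinarith, fun τ => ?_⟩
  have i1 : Integrable (fun t : ℝ => C1 * C2 * (1 + |τ|) ^ p * (1 + (t - τ) ^ 2)⁻¹) :=
    (integrable_inv_one_add_sq.comp_sub_right τ).const_mul _
  have hcont := Z_cont k
  have i2 : Integrable (fun t : ℝ => Real.exp (-(t - τ) ^ 2 / 4) * Z k t) := by
    refine i1.mono' (by fun_prop : Continuous _).aestronglyMeasurable (Eventually.of_forall fun t => ?_)
    rw [Real.norm_of_nonneg (mul_nonneg (Real.exp_pos _).le (Z_nonneg k t))]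
    exact hpt τ t
  refine ⟨i2, ?_⟩
  calc _ ≤ ∫ t, C1 * C2 * (1 + |τ|) ^ p * (1 + (t - τ) ^ 2)⁻¹ := integral_mono i2 i1 (hpt τ)
    _ = C1 * C2 * (1 + |τ|) ^ p * Real.pi := by
        rw [integral_const_mul, integral_sub_right_eq_self (fun t : ℝ => (1 + t ^ 2)⁻¹) τ,
          integral_univ_inv_one_add_sq]
    _ = _ := by ring

end

end Pool.Agent.J4.H63.TS
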