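import Pool.Agent.J4.H63.TS.K5

set_option autoImplicit false

/-! Thick sets carry a positive proportion of the moments. -/

namespace Pool.Agent.J4.H63.TS

open Complex MeasureTheory Filter Topology Set Pool.Agent.TH535.SM Pool.Agent.J4.H63.SA

noncomputable section

/-- a small tail of the smooth cut-off -/
lemma v_tail {t T Δ : ℝ} (hT : 0 ≤ T) (hΔ : 0 ≤ Δ) (ht : t < -Δ ∨ T + Δ < t) :
    v T t ≤ 2 * Real.exp (-Δ ^ 2 / 4) * (Real.exp (-t ^ 2 / 4) + Real.exp (-(t - T) ^ 2 / 4)) := by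
  have hs := sqrt2_le
  have hs0 : 0 ≤ √2 := Real.sqrt_nonneg 2
  have hρ := Real.exp_pos (-Δ ^ 2 / 4)
  have e1 := Real.exp_pos (-t ^ 2 / 4)
  have e2 := Real.exp_pos (-(t - T) ^ 2 / 4)
  have key : ∀ d : ℝ, Δ ≤ |d| → v T t ≤ √2 * Real.exp (-d ^ 2 / 2) →
      v T t ≤ 2 * Real.exp (-Δ ^ 2 / 4) * Real.exp (-d ^ 2 / 4) := by
    intro d hd hv
    have h3 := exp_half hΔ hd
    calc v T t ≤ √2 * Real.exp (-d ^ 2 / 2) := hv
      _ ≤ 2 * (Real.exp (-Δ ^ 2 / 4) * Real.exp (-d ^ 2 / 4)) := by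
          gcongr
          linarith
      _ = _ := by ring
  rcases ht with h | h
  · have h4 := key t (by rw [abs_of_nonpos (by linarith)]; linarith) (v_neg hT (by linarith))
    refine h4.trans ?_
    gcongr
    linarith
  · have h4 := key (t - T) (by rw [abs_of_nonneg (by linarith)]; linarith) (v_gt hT (by linarith))
    refine h4.trans ?_
    gcongr
    linarith

lemma v_low {t T Δ : ℝ} (hT : 0 ≤ T) (hΔ : 0 ≤ Δ) (h1 : Δ ≤ t) (h2 : t ≤ T - Δ) :
    1 - 3 * Real.exp (-Δ ^ 2 / 4) ≤ v T t := by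
  have hv := v_mid (T := T) (t := t) hT (by linarith) (by linarith)
  have e0 : ∀ d : ℝ, Δ ≤ |d| → Real.exp (-d ^ 2 / 2) ≤ Real.exp (-Δ ^ 2 / 4) := by
    intro d hd
    have h3 := exp_half hΔ hd
    have h4 : Real.exp (-d ^ 2 / 4) ≤ 1 := Real.exp_le_one_iff.2 (by nlinarith [sq_nonneg d])
    exact h3.trans (mul_le_of_le_one_right (Real.exp_pos _).le h4)
  have a1 := e0 t (by rw [abs_of_nonneg (by linarith)]; linarith)
  have a2 := e0 (t - T) (by rw [abs_of_nonpos (by linarith)]; linarith)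
  have hs := sqrt2_le
  have hs0 : 0 ≤ √2 := Real.sqrt_nonneg 2
  have hρ := Real.exp_pos (-Δ ^ 2 / 4)
  have h6 : √2 * (Real.exp (-t ^ 2 / 2) + Real.exp (-(t - T) ^ 2 / 2)) ≤
      3 / 2 * (2 * Real.exp (-Δ ^ 2 / 4)) := by
    refine mul_le_mul hs (by linarith) (by positivity) (by norm_num)
  linarith

/-- **Thick sets.** -/
theorem thick (k : ℕ) {A γ : ℝ} (hA : 0 < A) (hγ : 0 < γ) : ∃ c : ℝ, 0 < c ∧ ∀ B : ℝ, 0 ≤ B →
    ∃ X0 : ℝ, 3 ≤ X0 ∧ ∀ X : ℝ, X0 ≤ X → ∀ a b : ℝ, 0 ≤ a → a + 5 * Real.log X ≤ b → b ≤ X →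
      ∀ E : Set ℝ, MeasurableSet E →
      (∀ y : ℝ, a ≤ y → y + A / Real.log X ≤ b →
        ENNReal.ofReal (γ * (A / Real.log X)) ≤ volume (E ∩ Icc y (y + A / Real.log X))) →
      c * (∫ t in (a + 2 * Real.log X)..(b - 2 * Real.log X), Z k t) - X ^ (-B) ≤ ∫ t in E ∩ Icc a b, Z k t := by
  have hk0 : (0:ℝ) ≤ k := Nat.cast_nonneg k
  have hb0 : 0 < (k + 1) * A := by positivity
  obtain ⟨n, K, hK, HL⟩ := local_ineq ((k + 1) * A) γ hb0 hγ
  refine ⟨3 / (64 * K), by positivity, fun B hB => ?_⟩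
  obtain ⟨u, hu, hbern⟩ := bern_zeta k (B := B + 1) (by linarith)
  obtain ⟨C1, hC1, hb1⟩ := hbern (n + 1)
  obtain ⟨C2, hC2, hb2⟩ := hbern (n + 2)
  obtain ⟨Cg, p, hCg, hg⟩ := gauss_Z k
  obtain ⟨t0, ht0, hH⟩ := H_ge k u
  obtain ⟨X1, hX1, htiny⟩ := tiny (4 * (Cg * 4 ^ p) / K) p (B + 1)
  obtain ⟨X2, hX2, htiny2⟩ := tiny 6 0 0
  refine ⟨max (max X1 X2) (max (max 3 (Real.exp (t0 + 2 * A + 1))) (1 + (C1 + C2) / K)), ?_,
    fun X hX a b ha hab hb E hE hthick => ?_⟩
  · exact le_max_of_le_right (le_max_of_le_left (le_max_left _ _))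
  have hXX1 : X1 ≤ X := (le_max_left _ _).trans ((le_max_left _ _).trans hX)
  have hXX2 : X2 ≤ X := (le_max_right _ _).trans ((le_max_left _ _).trans hX)
  have hX3 : 3 ≤ X := (le_max_left _ _).trans ((le_max_left _ _).trans ((le_max_right _ _).trans hX))
  have hXt : Real.exp (t0 + 2 * A + 1) ≤ X :=
    (le_max_right _ _).trans ((le_max_left _ _).trans ((le_max_right _ _).trans hX))
  have hXs : 1 + (C1 + C2) / K ≤ X := (le_max_right _ _).trans ((le_max_right _ _).trans hX)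
  have hX0 : 0 < X := by linarith
  have hLX : Real.log X ≤ X - 1 := Real.log_le_sub_one_of_pos hX0
  have hLt : t0 + 2 * A + 1 ≤ Real.log X := by rwa [Real.le_log_iff_exp_le hX0]
  specialize htiny X hXX1
  specialize htiny2 X hXX2
  obtain ⟨D, hD⟩ : ∃ D, D = Real.log X := ⟨_, rfl⟩
  rw [← hD] at hab hLX hLt htiny htiny2 hthick ⊢
  have hD1 : 1 ≤ D := by linarith
  have hD0 : 0 < D := by linarith
  set ρ : ℝ := Real.exp (-(D / 2) ^ 2 / 4) with hρ
  have hρ0 : 0 < ρ := Real.exp_pos _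
  have hρ6 : 6 * ρ ≤ 1 := by
    have := htiny2
    rw [Real.rpow_zero, mul_one, neg_zero, Real.rpow_zero] at this
    exact this
  set l : ℝ := A / D with hl
  have hl0 : 0 < l := by positivity
  have hl1 : l ≤ D / 2 := by
    rw [hl, div_le_iff₀ hD0]
    nlinarith
  -- the window
  set α : ℝ := a + D with hα
  set T : ℝ := b - a - 2 * D with hT
  have hT1 : 1 ≤ T := by rw [hT]; linarith
  have hT0 : 0 ≤ T := by linarith
  have hα0 : 0 ≤ α := by rw [hα]; linarith
  have hTα : 1 + T + |α| ≤ 4 * X := by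
    rw [abs_of_nonneg hα0, hT, hα]; linarith
  set F : ℝ → ℂ := Fn (Gh k u α) T 0 with hF
  obtain ⟨hdec, hsm, hint, -⟩ := F_props k hu hT1 α
  rw [← hF] at hdec hsm hint
  have hFc : Continuous F := hdec.cont
  -- the partition
  set N : ℕ := ⌊(T + 2 * D) / l⌋₊ with hN
  have hN1 : (N : ℝ) * l ≤ T + 2 * D := by
    have := Nat.floor_le (by positivity : 0 ≤ (T + 2 * D) / l)
    rw [← hN, le_div_iff₀ hl0] at this
    exact this
  have hN2 : T + 2 * D < (N + 1 : ℝ) * l := by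
    have := Nat.lt_floor_add_one ((T + 2 * D) / l)
    rw [← hN, div_lt_iff₀ hl0] at this
    exact this
  set E1 : Set ℝ := (fun t => t + α) ⁻¹' E with hE1
  have hE1m : MeasurableSet E1 := hE.preimage (by fun_prop)
  have hshift : ∀ S : Set ℝ, volume ((fun t : ℝ => t + α) ⁻¹' S) = volume S := fun S =>
    measure_preimage_add_right volume α S
  have hv : ∀ j < N, ENNReal.ofReal (γ * l) ≤ volume (E1 ∩ Icc (-D + j * l) (-D + j * l + l)) := by
    intro j hj
    have hjN : (j : ℝ) + 1 ≤ N := by exact_mod_cast hj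
    have h1 : ((j:ℝ) + 1) * l ≤ N * l := by gcongr
    have hj0 : 0 ≤ (j:ℝ) * l := by positivity
    have h2 := hthick (a + j * l) (by linarith) (by rw [hT] at hN1; linarith)
    have h3 : E1 ∩ Icc (-D + j * l) (-D + j * l + l) = (fun t => t + α) ⁻¹' (E ∩ Icc (a + j * l) (a + j * l + l)) := by
      ext t
      simp only [hE1, mem_inter_iff, mem_preimage, mem_Icc, hα]
      constructor
      · rintro ⟨h4, h5, h6⟩
        exact ⟨h4, by linarith, by linarith⟩
      · rintro ⟨h4, h5, h6⟩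
        exact ⟨h4, by linarith, by linarith⟩
    rw [h3, hshift]
    exact h2
  have hmain := all_intervals hb0 hK HL hsm (y := -D) hl0 hE1m N hv
  set w1 : ℝ := -D + N * l with hw1
  have hw1a : T + D / 2 ≤ w1 := by
    have : (N + 1 : ℝ) * l = N * l + l := by ring
    rw [this] at hN2
    rw [hw1]; linarith
  have hw1b : w1 ≤ T + D := by rw [hw1]; linarith
  -- the derivatives
  have hbl : (k + 1) * A / l = (k + 1) * D := by rw [hl]; field_simp
  rw [hbl] at hmain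
  set m0 : ℝ := ∫ t, ‖F t‖ ^ 2 with hm0
  have hm00 : 0 ≤ m0 := integral_nonneg fun _ => by positivity
  have hΛ1 : 1 ≤ ((k:ℝ) + 1) * D := by nlinarith
  have hder : ∀ (j : ℕ) (C : ℝ), 0 ≤ C → ∫ t, ‖iteratedDeriv j F t‖ ^ 2 ≤
      ((k + 1) * D) ^ (2 * j) * m0 + C * X ^ (-(B + 1)) →
      (8 * ((k + 1) * D) ^ (2 * j))⁻¹ * (∫ t in (-D)..w1, ‖iteratedDeriv j F t‖ ^ 2) ≤ m0 / 8 + C * X ^ (-(B + 1)) := by
    intro j C hC hj
    have h1 : ∫ t in (-D)..w1, ‖iteratedDeriv j F t‖ ^ 2 ≤ ∫ t, ‖iteratedDeriv j F t‖ ^ 2 := by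
      rw [intervalIntegral.integral_of_le (by linarith)]
      exact setIntegral_le_integral (hint j) (Eventually.of_forall fun _ => by positivity)
    have h2 : 1 ≤ ((k + 1) * D) ^ (2 * j) := one_le_pow₀ hΛ1
    have hx : 0 ≤ C * X ^ (-(B + 1)) := by positivity
    rw [inv_mul_le_iff₀ (by positivity)]
    have h3 : C * X ^ (-(B + 1)) ≤ 8 * ((k + 1) * D) ^ (2 * j) * (C * X ^ (-(B + 1))) := by
      nlinarith
    calc _ ≤ ((k + 1) * D) ^ (2 * j) * m0 + C * X ^ (-(B + 1)) := h1.trans hj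
      _ ≤ ((k + 1) * D) ^ (2 * j) * m0 + 8 * ((k + 1) * D) ^ (2 * j) * (C * X ^ (-(B + 1))) := by linarith
      _ = _ := by ring
  have hd1 := hder (n + 1) C1 hC1 (by
    have := hb1 X (by linarith) T α hT1 hTα
    rwa [← hF, ← hD, ← hm0] at this)
  have hd2 := hder (n + 2) C2 hC2 (by
    have := hb2 X (by linarith) T α hT1 hTα
    rwa [← hF, ← hD, ← hm0] at this)
  -- the integral over `E`
  have hZα : Continuous (fun t => Z k (t + α)) := (Z_cont k).comp (by fun_prop)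
  have hEint : ∫ t in E1 ∩ Ioc (-D) w1, ‖F t‖ ^ 2 ≤ ∫ t in E ∩ Icc a b, Z k t := by
    have h1 : ∫ t in E1 ∩ Ioc (-D) w1, ‖F t‖ ^ 2 ≤ ∫ t in E1 ∩ Ioc (-D) w1, Z k (t + α) := by
      refine setIntegral_mono ?_ ?_ fun t => ?_
      · exact ((hFc.norm.pow 2).continuousOn.integrableOn_compact isCompact_Icc).mono_set
          (inter_subset_right.trans Ioc_subset_Icc_self)
      · exact (hZα.continuousOn.integrableOn_compact isCompact_Icc).mono_set
          (inter_subset_right.trans Ioc_subset_Icc_self)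
      · have := F_le k u α hT0 t
        have h2 := v_le_one hT0 t
        have h3 := Z_nonneg k (t + α)
        calc ‖F t‖ ^ 2 ≤ v T t * Z k (t + α) := this
          _ ≤ 1 * Z k (t + α) := by gcongr
          _ = _ := one_mul _
    have h2 : E1 ∩ Ioc (-D) w1 ⊆ (fun t => t + α) ⁻¹' (E ∩ Icc a b) := by
      rintro t ⟨h3, h4, h5⟩
      refine ⟨h3, ?_, ?_⟩
      · rw [hα]; linarith
      · rw [hα]; rw [hT] at hw1b; linarith
    have h3 : ∫ t in E1 ∩ Ioc (-D) w1, Z k (t + α) ≤ ∫ t in (fun t => t + α) ⁻¹' (E ∩ Icc a b), Z k (t + α) := by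
      refine setIntegral_mono_set ?_ (Eventually.of_forall fun t => Z_nonneg k _) h2.eventuallyLE
      refine (hZα.continuousOn.integrableOn_compact (isCompact_Icc (a := a - α) (b := b - α))).mono_set ?_
      rintro t ⟨_, h4, h5⟩
      have h4' : a ≤ t + α := h4
      have h5' : t + α ≤ b := h5
      exact ⟨by linarith, by linarith⟩
    have h4 : ∫ t in (fun t => t + α) ⁻¹' (E ∩ Icc a b), Z k (t + α) = ∫ t in E ∩ Icc a b, Z k t :=
      (measurePreserving_add_right volume α).setIntegral_preimage_emb (measurableEmbedding_addRight α) (Z k) _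
    linarith
  -- the tail
  obtain ⟨g1, g1'⟩ := hg α
  obtain ⟨g2, g2'⟩ := hg (α + T)
  have hGb : ∀ τ : ℝ, |τ| ≤ 4 * X - 1 → Cg * (1 + |τ|) ^ p ≤ Cg * 4 ^ p * X ^ p := by
    intro τ hτ
    have h0 := abs_nonneg τ
    calc Cg * (1 + |τ|) ^ p ≤ Cg * (4 * X) ^ p := by gcongr; linarith
      _ = Cg * 4 ^ p * X ^ p := by rw [mul_pow]; ring
  have hG1 := hGb α (by rw [abs_of_nonneg hα0, hα]; linarith)
  have hG2 := hGb (α + T) (by rw [abs_of_nonneg (by linarith), hα, hT]; linarith)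
  have htail : m0 ≤ (∫ t in (-D)..w1, ‖F t‖ ^ 2) + 4 * (Cg * 4 ^ p) * ρ * X ^ p := by
    have i1 : Integrable (fun t : ℝ => Real.exp (-t ^ 2 / 4) * Z k (t + α)) := by
      have := g1.comp_add_right α
      refine this.congr (Eventually.of_forall fun t => ?_)
      simp only [add_sub_cancel_right]
    have i2 : Integrable (fun t : ℝ => Real.exp (-(t - T) ^ 2 / 4) * Z k (t + α)) := by
      have := g2.comp_add_right α
      refine this.congr (Eventually.of_forall fun t => ?_)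
      simp only
      congr 3
      ring
    have v1 : ∫ t : ℝ, Real.exp (-t ^ 2 / 4) * Z k (t + α) ≤ Cg * 4 ^ p * X ^ p := by
      refine le_trans (le_of_eq ?_) (g1'.trans hG1)
      rw [← integral_add_right_eq_self (fun t : ℝ => Real.exp (-(t - α) ^ 2 / 4) * Z k t) α]
      refine integral_congr_ae (Eventually.of_forall fun t => ?_)
      simp only [add_sub_cancel_right]
    have v2 : ∫ t : ℝ, Real.exp (-(t - T) ^ 2 / 4) * Z k (t + α) ≤ Cg * 4 ^ p * X ^ p := by
      refine le_trans (le_of_eq ?_) (g2'.trans hG2)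
      rw [← integral_add_right_eq_self (fun t : ℝ => Real.exp (-(t - (α + T)) ^ 2 / 4) * Z k t) α]
      refine integral_congr_ae (Eventually.of_forall fun t => ?_)
      simp only
      congr 3
      ring
    have i3 : Integrable ((Ioc (-D) w1).indicator fun t => ‖F t‖ ^ 2) := by
      rw [integrable_indicator_iff measurableSet_Ioc]
      exact hdec.sq.integrableOn
    have i4 : Integrable (fun t : ℝ => Real.exp (-t ^ 2 / 4) * Z k (t + α) +
        Real.exp (-(t - T) ^ 2 / 4) * Z k (t + α)) := i1.add i2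
    have hpt : ∀ t, ‖F t‖ ^ 2 ≤ (Ioc (-D) w1).indicator (fun t => ‖F t‖ ^ 2) t + 2 * ρ *
        (Real.exp (-t ^ 2 / 4) * Z k (t + α) + Real.exp (-(t - T) ^ 2 / 4) * Z k (t + α)) := by
      intro t
      have hz := Z_nonneg k (t + α)
      have e1 := Real.exp_pos (-t ^ 2 / 4)
      have e2 := Real.exp_pos (-(t - T) ^ 2 / 4)
      by_cases ht : t ∈ Ioc (-D) w1
      · rw [indicator_of_mem ht]
        have : 0 ≤ 2 * ρ * (Real.exp (-t ^ 2 / 4) * Z k (t + α) + Real.exp (-(t - T) ^ 2 / 4) * Z k (t + α)) := by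
          positivity
        linarith
      · rw [indicator_of_notMem ht, zero_add]
        rw [mem_Ioc, not_and_or, not_lt, not_le] at ht
        have h1 := v_tail (t := t) hT0 (by linarith : 0 ≤ D / 2) (by
          rcases ht with h | h
          · left; linarith
          · right; linarith)
        rw [← hρ] at h1
        calc ‖F t‖ ^ 2 ≤ v T t * Z k (t + α) := F_le k u α hT0 t
          _ ≤ (2 * ρ * (Real.exp (-t ^ 2 / 4) + Real.exp (-(t - T) ^ 2 / 4))) * Z k (t + α) := by gcongr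
          _ = _ := by ring
    have h1 := integral_mono hdec.sq (i3.add (i4.const_mul (2 * ρ))) hpt
    have h2 : ∫ t, ((Ioc (-D) w1).indicator (fun t => ‖F t‖ ^ 2) + fun t => 2 * ρ *
        (Real.exp (-t ^ 2 / 4) * Z k (t + α) + Real.exp (-(t - T) ^ 2 / 4) * Z k (t + α))) t =
        (∫ t in (-D)..w1, ‖F t‖ ^ 2) + 2 * ρ * ((∫ t : ℝ, Real.exp (-t ^ 2 / 4) * Z k (t + α)) +
          ∫ t : ℝ, Real.exp (-(t - T) ^ 2 / 4) * Z k (t + α)) := by
      rw [integral_add' i3 (i4.const_mul (2 * ρ)), integral_const_mul, integral_add i1 i2,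
        integral_indicator measurableSet_Ioc, intervalIntegral.integral_of_le (by linarith)]
    rw [h2, ← hm0] at h1
    have h3 : 2 * ρ * ((∫ t : ℝ, Real.exp (-t ^ 2 / 4) * Z k (t + α)) +
          ∫ t : ℝ, Real.exp (-(t - T) ^ 2 / 4) * Z k (t + α)) ≤ 2 * ρ * (Cg * 4 ^ p * X ^ p + Cg * 4 ^ p * X ^ p) := by
      gcongr
    calc m0 ≤ _ := h1
      _ ≤ (∫ t in (-D)..w1, ‖F t‖ ^ 2) + 2 * ρ * (Cg * 4 ^ p * X ^ p + Cg * 4 ^ p * X ^ p) := by linarith
      _ = _ := by ring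
  -- the middle
  have hmid : (∫ t in (a + 2 * D)..(b - 2 * D), Z k t) ≤ 16 * m0 := by
    have e1 : ∫ t in (a + 2 * D)..(b - 2 * D), Z k t = ∫ t in D..(T - D), Z k (t + α) := by
      rw [intervalIntegral.integral_comp_add_right (fun t => Z k t) α]
      congr 1
      · rw [hα]; ring
      · rw [hα, hT]; ring
    have h1 : ∫ t in D..(T - D), Z k (t + α) ≤ ∫ t in D..(T - D), 16 * ‖F t‖ ^ 2 := by
      refine intervalIntegral.integral_mono_on (by rw [hT]; linarith) (hZα.intervalIntegrable _ _)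
        (((hFc.norm.pow 2).const_mul 16).intervalIntegrable _ _) fun t ht => ?_
      have h2 := hH (t + α) (by linarith [ht.1])
      have h3 := v_low (t := t) (T := T) (Δ := D / 2) hT0 (by linarith) (by linarith [ht.1]) (by linarith [ht.2])
      rw [← hρ] at h3
      have h4 : 1 / 2 ≤ v T t := by linarith
      have h5 : ‖F t‖ ^ 2 = v T t ^ 2 * ‖H k u (1 / 2 + ((t + α : ℝ) : ℂ) * I)‖ ^ 2 := by
        rw [hF, Gh_line, norm_mul, Complex.norm_real, Real.norm_of_nonneg (v_nonneg hT0 t), mul_pow]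
      have h6 : (1:ℝ) / 4 ≤ v T t ^ 2 := by nlinarith
      rw [h5]
      have h7 := Z_nonneg k (t + α)
      calc Z k (t + α) = 16 * ((1 / 4) * (Z k (t + α) / 4)) := by ring
        _ ≤ 16 * (v T t ^ 2 * ‖H k u (1 / 2 + ((t + α : ℝ) : ℂ) * I)‖ ^ 2) := by gcongr
    have h2 : ∫ t in D..(T - D), 16 * ‖F t‖ ^ 2 ≤ 16 * m0 := by
      rw [intervalIntegral.integral_const_mul, intervalIntegral.integral_of_le (by rw [hT]; linarith)]
      refine mul_le_mul_of_nonneg_left ?_ (by norm_num)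
      exact setIntegral_le_integral hdec.sq (Eventually.of_forall fun _ => by positivity)
    rw [e1]
    exact h1.trans h2
  -- conclusion
  set JE : ℝ := ∫ t in E ∩ Icc a b, Z k t with hJE
  have hfin : 3 / 4 * m0 ≤ K * JE + (C1 + C2) * X ^ (-(B + 1)) + 4 * (Cg * 4 ^ p) * ρ * X ^ p := by
    have h1 : K * (∫ t in E1 ∩ Ioc (-D) w1, ‖F t‖ ^ 2) ≤ K * JE := by gcongr
    linarith
  have hKinv : 0 < K⁻¹ := inv_pos.2 hK
  have h1 : 3 / (64 * K) * (∫ t in (a + 2 * D)..(b - 2 * D), Z k t) ≤ 3 / (4 * K) * m0 := by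
    calc _ ≤ 3 / (64 * K) * (16 * m0) := by gcongr
      _ = _ := by field_simp; ring
  have h2 : 3 / (4 * K) * m0 ≤ JE + (C1 + C2) / K * X ^ (-(B + 1)) + 4 * (Cg * 4 ^ p) / K * ρ * X ^ p := by
    have e1 : 3 / (4 * K) * m0 = (3 / 4 * m0) / K := by field_simp
    have e2 : JE + (C1 + C2) / K * X ^ (-(B + 1)) + 4 * (Cg * 4 ^ p) / K * ρ * X ^ p =
        (K * JE + (C1 + C2) * X ^ (-(B + 1)) + 4 * (Cg * 4 ^ p) * ρ * X ^ p) / K := by field_simp
    rw [e1, e2]
    exact div_le_div_of_nonneg_right hfin hK.le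
  rw [Real.rpow_natCast] at htiny
  have h3 : (1 + (C1 + C2) / K) * X ^ (-(B + 1)) ≤ X ^ (-B) := by
    have e : X ^ (-B) = X * X ^ (-(B + 1)) := by
      have e1 : -B = 1 + -(B + 1) := by ring
      rw [e1, Real.rpow_add hX0, Real.rpow_one]
    rw [e]
    gcongr
  linarith

end

end Pool.Agent.J4.H63.TS
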