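import Pool.Agent.J4.H63.TS.K6

set_option autoImplicit false

/-! Sparse sets carry a small proportion of the moments. -/

namespace Pool.Agent.J4.H63.TS

open Complex MeasureTheory Filter Topology Set Pool.Agent.TH535.SM Pool.Agent.J4.H63.SA

noncomputable section

/-- the upper bound on the union of the intervals of a partition -/
lemma all_upper {f f' : ℝ → ℂ} (hd : ∀ t, HasDerivAt f (f' t) t) (hc : Continuous f') {y l δ : ℝ} (hl : 0 < l)
    (hδ : 0 ≤ δ) {E : Set ℝ} (hE : MeasurableSet E) (N : ℕ)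
    (hv : ∀ j < N, volume (E ∩ Icc (y + j * l) (y + j * l + l)) ≤ ENNReal.ofReal (δ * l)) :
    ∫ t in E ∩ Ioc y (y + N * l), ‖f t‖ ^ 2 ≤ δ * (2 * (∫ t in y..(y + N * l), ‖f t‖ ^ 2) +
      2 * l ^ 2 * ∫ t in y..(y + N * l), ‖f' t‖ ^ 2) := by
  have hfc : Continuous f := continuous_iff_continuousAt.2 fun t => (hd t).continuousAt
  have hcf : Continuous (fun t => ‖f t‖ ^ 2) := hfc.norm.pow 2
  have hcf' : Continuous (fun t => ‖f' t‖ ^ 2) := hc.norm.pow 2
  induction N with
  | zero => simp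
  | succ N ih =>
    have ih' := ih fun j hj => hv j (by omega)
    have e0 : y + ((N + 1 : ℕ) : ℝ) * l = y + N * l + l := by push_cast; ring
    rw [e0]
    have hNl : 0 ≤ (N:ℝ) * l := by positivity
    have hE1 : MeasurableSet (E ∩ Ioc (y + N * l) (y + N * l + l)) := hE.inter measurableSet_Ioc
    have hv1 : volume (E ∩ Ioc (y + N * l) (y + N * l + l)) ≤ ENNReal.ofReal (δ * l) :=
      (measure_mono (inter_subset_inter_right _ Ioc_subset_Icc_self)).trans (hv N (by omega))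
    set M : ℝ := 2 / l * (∫ t in (y + N * l)..(y + N * l + l), ‖f t‖ ^ 2) +
      2 * l * ∫ t in (y + N * l)..(y + N * l + l), ‖f' t‖ ^ 2 with hM
    have hM0 : 0 ≤ M := by
      have q1 : 0 ≤ ∫ t in (y + N * l)..(y + N * l + l), ‖f t‖ ^ 2 :=
        intervalIntegral.integral_nonneg (by linarith) fun _ _ => by positivity
      have q2 : 0 ≤ ∫ t in (y + N * l)..(y + N * l + l), ‖f' t‖ ^ 2 :=
        intervalIntegral.integral_nonneg (by linarith) fun _ _ => by positivity
      positivity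
    have h1 : ∫ t in E ∩ Ioc (y + N * l) (y + N * l + l), ‖f t‖ ^ 2 ≤ M * (δ * l) := by
      have h2 : ‖∫ t in E ∩ Ioc (y + N * l) (y + N * l + l), ‖f t‖ ^ 2‖ ≤
          M * volume.real (E ∩ Ioc (y + N * l) (y + N * l + l)) := by
        refine norm_setIntegral_le_of_norm_le_const (hv1.trans_lt ENNReal.ofReal_lt_top) fun t ht => ?_
        rw [Real.norm_of_nonneg (by positivity)]
        exact sobolev hd hc hl (Ioc_subset_Icc_self ht.2)
      have h3 : volume.real (E ∩ Ioc (y + N * l) (y + N * l + l)) ≤ δ * l := by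
        rw [Measure.real]
        exact ENNReal.toReal_le_of_le_ofReal (by positivity) hv1
      refine (Real.le_norm_self _).trans (h2.trans ?_)
      gcongr
    have h1' : M * (δ * l) = δ * (2 * (∫ t in (y + N * l)..(y + N * l + l), ‖f t‖ ^ 2) +
        2 * l ^ 2 * ∫ t in (y + N * l)..(y + N * l + l), ‖f' t‖ ^ 2) := by
      rw [hM]; field_simp
    have add : ∀ g : ℝ → ℝ, Continuous g → ∫ t in y..(y + N * l + l), g t =
        (∫ t in y..(y + N * l), g t) + ∫ t in (y + N * l)..(y + N * l + l), g t := fun g hg =>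
      (intervalIntegral.integral_add_adjacent_intervals (hg.intervalIntegrable _ _) (hg.intervalIntegrable _ _)).symm
    have addE : ∫ t in E ∩ Ioc y (y + N * l + l), ‖f t‖ ^ 2 =
        (∫ t in E ∩ Ioc y (y + N * l), ‖f t‖ ^ 2) + ∫ t in E ∩ Ioc (y + N * l) (y + N * l + l), ‖f t‖ ^ 2 := by
      have e1 : E ∩ Ioc y (y + N * l + l) = (E ∩ Ioc y (y + N * l)) ∪ (E ∩ Ioc (y + N * l) (y + N * l + l)) := by
        rw [← inter_union_distrib_left, Ioc_union_Ioc_eq_Ioc (by linarith) (by linarith)]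
      rw [e1]
      refine setIntegral_union ?_ hE1 ?_ ?_
      · rw [Set.disjoint_left]
        rintro t ⟨_, _, h2⟩ ⟨_, h3, _⟩
        linarith
      · exact (hcf.continuousOn.integrableOn_compact isCompact_Icc).mono_set (inter_subset_right.trans Ioc_subset_Icc_self)
      · exact (hcf.continuousOn.integrableOn_compact isCompact_Icc).mono_set (inter_subset_right.trans Ioc_subset_Icc_self)
    rw [add _ hcf, add _ hcf', addE]
    rw [h1'] at h1
    linarith

/-- **Sparse sets.** -/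
theorem sparse (k : ℕ) {A : ℝ} (hA : 0 < A) : ∀ B : ℝ, 0 ≤ B →
    ∃ X0 : ℝ, 3 ≤ X0 ∧ ∀ X : ℝ, X0 ≤ X → ∀ a b : ℝ, 0 ≤ a → a + 5 * Real.log X ≤ b → b ≤ X →
      ∀ δ : ℝ, 0 ≤ δ → ∀ E : Set ℝ, MeasurableSet E →
      (∀ y : ℝ, a ≤ y → y + A / Real.log X ≤ b →
        volume (E ∩ Icc y (y + A / Real.log X)) ≤ ENNReal.ofReal (δ * (A / Real.log X))) →
      ∫ t in E ∩ Icc (a + 2 * Real.log X) (b - 2 * Real.log X), Z k t ≤
        32 * (1 + ((k + 1) * A) ^ 2) * δ * (∫ t in a..b, Z k t) + δ * X ^ (-B) := by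
  intro B hB
  have hk0 : (0:ℝ) ≤ k := Nat.cast_nonneg k
  set Q : ℝ := 32 * (1 + ((k + 1) * A) ^ 2) with hQ
  have hQ0 : 0 < Q := by positivity
  obtain ⟨u, hu, hbern⟩ := bern_zeta k (B := B + 1) (by linarith)
  obtain ⟨C1, hC1, hb1⟩ := hbern 1
  obtain ⟨Cg, p, hCg, hg⟩ := gauss_Z k
  obtain ⟨t0, ht0, hH⟩ := H_ge k u
  obtain ⟨X1, hX1, htiny⟩ := tiny (Q * (4 * (Cg * 4 ^ p))) p (B + 1)
  obtain ⟨X2, hX2, htiny2⟩ := tiny 6 0 0
  refine ⟨max (max X1 X2) (max (max 3 (Real.exp (t0 + 2 * A + 1))) (1 + 32 * A ^ 2 * C1)), ?_,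
    fun X hX a b ha hab hb δ hδ E hE hsparse => ?_⟩
  · exact le_max_of_le_right (le_max_of_le_left (le_max_left _ _))
  have hXX1 : X1 ≤ X := (le_max_left _ _).trans ((le_max_left _ _).trans hX)
  have hXX2 : X2 ≤ X := (le_max_right _ _).trans ((le_max_left _ _).trans hX)
  have hX3 : 3 ≤ X := (le_max_left _ _).trans ((le_max_left _ _).trans ((le_max_right _ _).trans hX))
  have hXt : Real.exp (t0 + 2 * A + 1) ≤ X :=
    (le_max_right _ _).trans ((le_max_left _ _).trans ((le_max_right _ _).trans hX))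
  have hXs : 1 + 32 * A ^ 2 * C1 ≤ X := (le_max_right _ _).trans ((le_max_right _ _).trans hX)
  have hX0 : 0 < X := by linarith
  have hLX : Real.log X ≤ X - 1 := Real.log_le_sub_one_of_pos hX0
  have hLt : t0 + 2 * A + 1 ≤ Real.log X := by rwa [Real.le_log_iff_exp_le hX0]
  specialize htiny X hXX1
  specialize htiny2 X hXX2
  obtain ⟨D, hD⟩ : ∃ D, D = Real.log X := ⟨_, rfl⟩
  rw [← hD] at hab hLX hLt htiny htiny2 hsparse ⊢
  have hD1 : 1 ≤ D := by linarith
  have hD0 : 0 < D := by linarith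
  set ρ : ℝ := Real.exp (-(D / 2) ^ 2 / 4) with hρ
  have hρ0 : 0 < ρ := Real.exp_pos _
  have hρ6 : 6 * ρ ≤ 1 := by
    have := htiny2
    rw [Real.rpow_zero, mul_one, neg_zero, Real.rpow_zero] at this
    exact this
  set l : ℝ := A / D with hl
  have hl0 : 0 < l := by positivity
  have hl1 : l ≤ D / 2 := by
    rw [hl, div_le_iff₀ hD0]
    nlinarith
  have hlA : l ^ 2 ≤ A ^ 2 := by
    have : l ≤ A := by rw [hl, div_le_iff₀ hD0]; nlinarith
    exact pow_le_pow_left₀ hl0.le this 2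
  -- the window
  set α : ℝ := a + D with hα
  set T : ℝ := b - a - 2 * D with hT
  have hT1 : 1 ≤ T := by rw [hT]; linarith
  have hT0 : 0 ≤ T := by linarith
  have hα0 : 0 ≤ α := by rw [hα]; linarith
  have hTα : 1 + T + |α| ≤ 4 * X := by
    rw [abs_of_nonneg hα0, hT, hα]; linarith
  set F : ℝ → ℂ := Fn (Gh k u α) T 0 with hF
  obtain ⟨hdec, hsm, hint, -⟩ := F_props k hu hT1 α
  rw [← hF] at hdec hsm hint
  have hFc : Continuous F := hdec.cont
  -- the partition
  set N : ℕ := ⌊(T + 2 * D) / l⌋₊ with hN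
  have hN1 : (N : ℝ) * l ≤ T + 2 * D := by
    have := Nat.floor_le (by positivity : 0 ≤ (T + 2 * D) / l)
    rw [← hN, le_div_iff₀ hl0] at this
    exact this
  have hN2 : T + 2 * D < (N + 1 : ℝ) * l := by
    have := Nat.lt_floor_add_one ((T + 2 * D) / l)
    rw [← hN, div_lt_iff₀ hl0] at this
    exact this
  set E1 : Set ℝ := (fun t => t + α) ⁻¹' E with hE1
  have hE1m : MeasurableSet E1 := hE.preimage (by fun_prop)
  have hshift : ∀ S : Set ℝ, volume ((fun t : ℝ => t + α) ⁻¹' S) = volume S := fun S =>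
    measure_preimage_add_right volume α S
  have hv : ∀ j < N, volume (E1 ∩ Icc (-D + j * l) (-D + j * l + l)) ≤ ENNReal.ofReal (δ * l) := by
    intro j hj
    have hjN : (j : ℝ) + 1 ≤ N := by exact_mod_cast hj
    have h1 : ((j:ℝ) + 1) * l ≤ N * l := by gcongr
    have hj0 : 0 ≤ (j:ℝ) * l := by positivity
    have h2 := hsparse (a + j * l) (by linarith) (by rw [hT] at hN1; linarith)
    have h3 : E1 ∩ Icc (-D + j * l) (-D + j * l + l) = (fun t => t + α) ⁻¹' (E ∩ Icc (a + j * l) (a + j * l + l)) := by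
      ext t
      simp only [hE1, mem_inter_iff, mem_preimage, mem_Icc, hα]
      constructor
      · rintro ⟨h4, h5, h6⟩
        exact ⟨h4, by linarith, by linarith⟩
      · rintro ⟨h4, h5, h6⟩
        exact ⟨h4, by linarith, by linarith⟩
    rw [h3, hshift]
    exact h2
  have hd : ∀ t, HasDerivAt F (iteratedDeriv 1 F t) t := by
    intro t
    rw [iteratedDeriv_one]
    exact ((hsm 1).differentiable (by norm_num) t).hasDerivAt
  have hcd : Continuous (iteratedDeriv 1 F) := (hsm 1).continuous_iteratedDeriv 1 le_rfl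
  have hmain := all_upper hd hcd (y := -D) hl0 hδ hE1m N hv
  set w1 : ℝ := -D + N * l with hw1
  have hw1a : T + D / 2 ≤ w1 := by
    have : (N + 1 : ℝ) * l = N * l + l := by ring
    rw [this] at hN2
    rw [hw1]; linarith
  have hw1b : w1 ≤ T + D := by rw [hw1]; linarith
  set m0 : ℝ := ∫ t, ‖F t‖ ^ 2 with hm0
  have hm00 : 0 ≤ m0 := integral_nonneg fun _ => by positivity
  -- the right-hand side of the local inequality
  have hup : ∫ t in E1 ∩ Ioc (-D) w1, ‖F t‖ ^ 2 ≤ δ * (2 * (1 + ((k + 1) * A) ^ 2) * m0 + 2 * A ^ 2 * C1 * X ^ (-(B + 1))) := by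
    have h1 : ∫ t in (-D)..w1, ‖F t‖ ^ 2 ≤ m0 := by
      rw [intervalIntegral.integral_of_le (by linarith)]
      exact setIntegral_le_integral hdec.sq (Eventually.of_forall fun _ => by positivity)
    have h2 : ∫ t in (-D)..w1, ‖iteratedDeriv 1 F t‖ ^ 2 ≤ ((k + 1) * D) ^ (2 * 1) * m0 + C1 * X ^ (-(B + 1)) := by
      have hj := hb1 X (by linarith) T α hT1 hTα
      rw [← hF, ← hD, ← hm0] at hj
      have hi : ∫ t in (-D)..w1, ‖iteratedDeriv 1 F t‖ ^ 2 ≤ ∫ t, ‖iteratedDeriv 1 F t‖ ^ 2 := by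
        rw [intervalIntegral.integral_of_le (by linarith)]
        exact setIntegral_le_integral (hint 1) (Eventually.of_forall fun _ => by positivity)
      exact hi.trans hj
    have hx : 0 ≤ C1 * X ^ (-(B + 1)) := by positivity
    refine hmain.trans (mul_le_mul_of_nonneg_left ?_ hδ)
    have h3 : l ^ 2 * ((k + 1) * D) ^ (2 * 1) = ((k + 1) * A) ^ 2 := by
      rw [hl, mul_one, div_pow, mul_pow, mul_pow]; field_simp
    calc _ ≤ 2 * m0 + 2 * l ^ 2 * (((k + 1) * D) ^ (2 * 1) * m0 + C1 * X ^ (-(B + 1))) := by gcongr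
      _ = 2 * m0 + 2 * (l ^ 2 * ((k + 1) * D) ^ (2 * 1)) * m0 + 2 * (l ^ 2 * (C1 * X ^ (-(B + 1)))) := by ring
      _ ≤ 2 * m0 + 2 * (l ^ 2 * ((k + 1) * D) ^ (2 * 1)) * m0 + 2 * (A ^ 2 * (C1 * X ^ (-(B + 1)))) := by gcongr
      _ = _ := by rw [h3]; ring
  -- the integral of `|ζ|^(2k)` over `E`
  have hZα : Continuous (fun t => Z k (t + α)) := (Z_cont k).comp (by fun_prop)
  have hlow : ∫ t in E ∩ Icc (a + 2 * D) (b - 2 * D), Z k t ≤ 16 * ∫ t in E1 ∩ Ioc (-D) w1, ‖F t‖ ^ 2 := by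
    have h4 : ∫ t in (fun t => t + α) ⁻¹' (E ∩ Icc (a + 2 * D) (b - 2 * D)), Z k (t + α) =
        ∫ t in E ∩ Icc (a + 2 * D) (b - 2 * D), Z k t :=
      (measurePreserving_add_right volume α).setIntegral_preimage_emb (measurableEmbedding_addRight α) (Z k) _
    have h5 : (fun t => t + α) ⁻¹' (E ∩ Icc (a + 2 * D) (b - 2 * D)) = E1 ∩ Icc D (T - D) := by
      ext t
      simp only [hE1, mem_inter_iff, mem_preimage, mem_Icc, hα, hT]
      constructor
      · rintro ⟨h4, h5, h6⟩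
        exact ⟨h4, by linarith, by linarith⟩
      · rintro ⟨h4, h5, h6⟩
        exact ⟨h4, by linarith, by linarith⟩
    rw [← h4, h5]
    have h6 : ∫ t in E1 ∩ Icc D (T - D), Z k (t + α) ≤ ∫ t in E1 ∩ Icc D (T - D), 16 * ‖F t‖ ^ 2 := by
      refine setIntegral_mono_on ?_ ?_ (hE1m.inter measurableSet_Icc) fun t ht => ?_
      · exact (hZα.continuousOn.integrableOn_compact isCompact_Icc).mono_set inter_subset_right
      · exact (((hFc.norm.pow 2).const_mul 16).continuousOn.integrableOn_compact isCompact_Icc).mono_set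
          inter_subset_right
      have ht1 : D ≤ t := ht.2.1
      have ht2 : t ≤ T - D := ht.2.2
      have h2 := hH (t + α) (by linarith)
      have h3 := v_low (t := t) (T := T) (Δ := D / 2) hT0 (by linarith) (by linarith) (by linarith)
      rw [← hρ] at h3
      have h4 : 1 / 2 ≤ v T t := by linarith
      have h5 : ‖F t‖ ^ 2 = v T t ^ 2 * ‖H k u (1 / 2 + ((t + α : ℝ) : ℂ) * I)‖ ^ 2 := by
        rw [hF, Gh_line, norm_mul, Complex.norm_real, Real.norm_of_nonneg (v_nonneg hT0 t), mul_pow]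
      have h6 : (1:ℝ) / 4 ≤ v T t ^ 2 := by nlinarith
      rw [h5]
      have h7 := Z_nonneg k (t + α)
      calc Z k (t + α) = 16 * ((1 / 4) * (Z k (t + α) / 4)) := by ring
        _ ≤ 16 * (v T t ^ 2 * ‖H k u (1 / 2 + ((t + α : ℝ) : ℂ) * I)‖ ^ 2) := by gcongr
    refine h6.trans ?_
    rw [integral_const_mul]
    refine mul_le_mul_of_nonneg_left ?_ (by norm_num)
    refine setIntegral_mono_set ?_ (Eventually.of_forall fun t => by positivity) (LE.le.eventuallyLE ?_)
    · exact hdec.sq.integrableOn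
    · rintro t ⟨h1, h2, h3⟩
      exact ⟨h1, by linarith, by linarith⟩
  -- the whole mass
  have hmass : m0 ≤ (∫ t in a..b, Z k t) + 4 * (Cg * 4 ^ p) * ρ * X ^ p := by
    obtain ⟨g1, g1'⟩ := hg α
    obtain ⟨g2, g2'⟩ := hg (α + T)
    have hGb : ∀ τ : ℝ, |τ| ≤ 4 * X - 1 → Cg * (1 + |τ|) ^ p ≤ Cg * 4 ^ p * X ^ p := by
      intro τ hτ
      have h0 := abs_nonneg τ
      calc Cg * (1 + |τ|) ^ p ≤ Cg * (4 * X) ^ p := by gcongr; linarith
        _ = Cg * 4 ^ p * X ^ p := by rw [mul_pow]; ring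
    have hG1 := hGb α (by rw [abs_of_nonneg hα0, hα]; linarith)
    have hG2 := hGb (α + T) (by rw [abs_of_nonneg (by linarith), hα, hT]; linarith)
    have i1 : Integrable (fun t : ℝ => Real.exp (-t ^ 2 / 4) * Z k (t + α)) := by
      have := g1.comp_add_right α
      refine this.congr (Eventually.of_forall fun t => ?_)
      simp only [add_sub_cancel_right]
    have i2 : Integrable (fun t : ℝ => Real.exp (-(t - T) ^ 2 / 4) * Z k (t + α)) := by
      have := g2.comp_add_right α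
      refine this.congr (Eventually.of_forall fun t => ?_)
      simp only
      congr 3
      ring
    have v1 : ∫ t : ℝ, Real.exp (-t ^ 2 / 4) * Z k (t + α) ≤ Cg * 4 ^ p * X ^ p := by
      refine le_trans (le_of_eq ?_) (g1'.trans hG1)
      rw [← integral_add_right_eq_self (fun t : ℝ => Real.exp (-(t - α) ^ 2 / 4) * Z k t) α]
      refine integral_congr_ae (Eventually.of_forall fun t => ?_)
      simp only [add_sub_cancel_right]
    have v2 : ∫ t : ℝ, Real.exp (-(t - T) ^ 2 / 4) * Z k (t + α) ≤ Cg * 4 ^ p * X ^ p := by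
      refine le_trans (le_of_eq ?_) (g2'.trans hG2)
      rw [← integral_add_right_eq_self (fun t : ℝ => Real.exp (-(t - (α + T)) ^ 2 / 4) * Z k t) α]
      refine integral_congr_ae (Eventually.of_forall fun t => ?_)
      simp only
      congr 3
      ring
    have i3 : Integrable ((Ioc (-D) (T + D)).indicator fun t => Z k (t + α)) := by
      rw [integrable_indicator_iff measurableSet_Ioc]
      exact (hZα.continuousOn.integrableOn_compact isCompact_Icc).mono_set Ioc_subset_Icc_self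
    have i4 : Integrable (fun t : ℝ => Real.exp (-t ^ 2 / 4) * Z k (t + α) +
        Real.exp (-(t - T) ^ 2 / 4) * Z k (t + α)) := i1.add i2
    have hpt : ∀ t, ‖F t‖ ^ 2 ≤ (Ioc (-D) (T + D)).indicator (fun t => Z k (t + α)) t + 2 * ρ *
        (Real.exp (-t ^ 2 / 4) * Z k (t + α) + Real.exp (-(t - T) ^ 2 / 4) * Z k (t + α)) := by
      intro t
      have hz := Z_nonneg k (t + α)
      have e1 := Real.exp_pos (-t ^ 2 / 4)
      have e2 := Real.exp_pos (-(t - T) ^ 2 / 4)
      have hle := F_le k u α hT0 t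
      rw [← hF] at hle
      by_cases ht : t ∈ Ioc (-D) (T + D)
      · rw [indicator_of_mem ht]
        have h0 : 0 ≤ 2 * ρ * (Real.exp (-t ^ 2 / 4) * Z k (t + α) + Real.exp (-(t - T) ^ 2 / 4) * Z k (t + α)) := by
          positivity
        have h2 := v_le_one hT0 t
        have h3 : v T t * Z k (t + α) ≤ 1 * Z k (t + α) := by gcongr
        linarith
      · rw [indicator_of_notMem ht, zero_add]
        rw [mem_Ioc, not_and_or, not_lt, not_le] at ht
        have h1 := v_tail (t := t) hT0 (by linarith : 0 ≤ D / 2) (by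
          rcases ht with h | h
          · left; linarith
          · right; linarith)
        rw [← hρ] at h1
        calc ‖F t‖ ^ 2 ≤ v T t * Z k (t + α) := hle
          _ ≤ (2 * ρ * (Real.exp (-t ^ 2 / 4) + Real.exp (-(t - T) ^ 2 / 4))) * Z k (t + α) := by gcongr
          _ = _ := by ring
    have h1 := integral_mono hdec.sq (i3.add (i4.const_mul (2 * ρ))) hpt
    have h5 : ∫ t in (-D)..(T + D), Z k (t + α) = ∫ t in a..b, Z k t := by
      rw [intervalIntegral.integral_comp_add_right (fun t => Z k t) α]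
      congr 1
      · rw [hα]; ring
      · rw [hα, hT]; ring
    have h2 : ∫ t, ((Ioc (-D) (T + D)).indicator (fun t => Z k (t + α)) + fun t => 2 * ρ *
        (Real.exp (-t ^ 2 / 4) * Z k (t + α) + Real.exp (-(t - T) ^ 2 / 4) * Z k (t + α))) t =
        (∫ t in a..b, Z k t) + 2 * ρ * ((∫ t : ℝ, Real.exp (-t ^ 2 / 4) * Z k (t + α)) +
          ∫ t : ℝ, Real.exp (-(t - T) ^ 2 / 4) * Z k (t + α)) := by
      rw [integral_add' i3 (i4.const_mul (2 * ρ)), integral_const_mul, integral_add i1 i2,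
        integral_indicator measurableSet_Ioc, ← intervalIntegral.integral_of_le (by linarith), h5]
    rw [h2, ← hm0] at h1
    have h3 : 2 * ρ * ((∫ t : ℝ, Real.exp (-t ^ 2 / 4) * Z k (t + α)) +
          ∫ t : ℝ, Real.exp (-(t - T) ^ 2 / 4) * Z k (t + α)) ≤ 2 * ρ * (Cg * 4 ^ p * X ^ p + Cg * 4 ^ p * X ^ p) := by
      gcongr
    calc m0 ≤ _ := h1
      _ ≤ (∫ t in a..b, Z k t) + 2 * ρ * (Cg * 4 ^ p * X ^ p + Cg * 4 ^ p * X ^ p) := by linarith
      _ = _ := by ring
  -- conclusion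
  rw [Real.rpow_natCast] at htiny
  have h3 : (1 + 32 * A ^ 2 * C1) * X ^ (-(B + 1)) ≤ X ^ (-B) := by
    have e : X ^ (-B) = X * X ^ (-(B + 1)) := by
      have e1 : -B = 1 + -(B + 1) := by ring
      rw [e1, Real.rpow_add hX0, Real.rpow_one]
    rw [e]
    gcongr
  calc ∫ t in E ∩ Icc (a + 2 * D) (b - 2 * D), Z k t
      ≤ 16 * (δ * (2 * (1 + ((k + 1) * A) ^ 2) * m0 + 2 * A ^ 2 * C1 * X ^ (-(B + 1)))) := by linarith
    _ = δ * (Q * m0 + 32 * A ^ 2 * C1 * X ^ (-(B + 1))) := by rw [hQ]; ring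
    _ ≤ δ * (Q * ((∫ t in a..b, Z k t) + 4 * (Cg * 4 ^ p) * ρ * X ^ p) + 32 * A ^ 2 * C1 * X ^ (-(B + 1))) := by
        gcongr
    _ = δ * (Q * (∫ t in a..b, Z k t) + (Q * (4 * (Cg * 4 ^ p)) * ρ * X ^ p + 32 * A ^ 2 * C1 * X ^ (-(B + 1)))) := by
        ring
    _ ≤ δ * (Q * (∫ t in a..b, Z k t) + X ^ (-B)) := by
        gcongr
        linarith
    _ = _ := by ring

end

end Pool.Agent.J4.H63.TS
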