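import Pool.Agent.J4.H63.TS.K7
import Pool.Agent.TH158.E8.Final

set_option autoImplicit false

/-! The eighth moment over thick sets. -/

namespace Pool.Agent.J4.H63.TS

open Complex MeasureTheory Filter Topology Set Pool.Agent.J4.H63.SA

noncomputable section

/-- **The eighth moment over a thick set.** -/
theorem eighth_thick {A γ α : ℝ} (hA : 0 < A) (hγ : 0 < γ) (hα0 : 0 ≤ α) (hα : α < 1 / 2) :
    ∃ c : ℝ, 0 < c ∧ ∀ᶠ T : ℝ in atTop, ∀ U H : ℝ, 0 ≤ U → U + H ≤ T → T / Real.log T ^ α ≤ H →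
      ∀ E : Set ℝ, MeasurableSet E →
      (∀ y : ℝ, U ≤ y → y + A / Real.log T ≤ U + H →
        ENNReal.ofReal (γ * (A / Real.log T)) ≤ volume (E ∩ Icc y (y + A / Real.log T))) →
      c * H * Real.log T ^ 16 ≤ ∫ t in E ∩ Icc U (U + H), Z 4 t := by
  obtain ⟨c, hc, hthick⟩ := thick 4 hA hγ
  obtain ⟨X0, hX0, h⟩ := hthick 0 le_rfl
  obtain ⟨β, hβ1, hβ2⟩ := exists_between hα
  have hβ0 : 0 ≤ β := hα0.trans hβ1.le
  set Q : ℝ := 900 * Pool.Agent.H306R2.aF 4 / (Nat.factorial 16 : ℝ) with hQ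
  have hQ0 : 0 < Q := by
    have ha : 0 < Pool.Agent.H306R2.aF 4 := Pool.Agent.H306R2.aF_pos (by norm_num)
    have hF : (0 : ℝ) < (Nat.factorial 16 : ℝ) := by exact_mod_cast Nat.factorial_pos 16
    positivity
  refine ⟨c * Q / 4, by positivity, ?_⟩
  -- the growth conditions
  have g1 : ∀ᶠ T : ℝ in atTop, 8 * Real.log T * Real.log T ^ (1 / 2 : ℝ) ≤ T := by
    have hl := isLittleO_log_rpow_atTop (r := (1 / 4 : ℝ)) (by norm_num)
    have h1 := hl.bound (c := 1 / 8) (by norm_num)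
    filter_upwards [h1, eventually_gt_atTop (Real.exp 1)] with T hT hT1
    have hT0 : 0 < T := (Real.exp_pos 1).trans hT1
    have hL : 1 ≤ Real.log T := by
      rw [Real.le_log_iff_exp_le hT0]; exact hT1.le
    rw [Real.norm_of_nonneg (by linarith), Real.norm_of_nonneg (by positivity)] at hT
    have h2 : Real.log T ^ (1 / 2 : ℝ) ≤ Real.log T := by
      conv_rhs => rw [← Real.rpow_one (Real.log T)]
      exact Real.rpow_le_rpow_of_exponent_le hL (by norm_num)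
    have hT1' : 1 ≤ T := by
      have : (1:ℝ) ≤ Real.exp 1 := Real.one_le_exp (by norm_num)
      linarith
    have h3 : T ^ (1 / 4 : ℝ) * T ^ (1 / 4 : ℝ) ≤ T := by
      rw [← Real.rpow_add hT0]
      conv_rhs => rw [← Real.rpow_one T]
      exact Real.rpow_le_rpow_of_exponent_le hT1' (by norm_num)
    have h4 : 0 ≤ T ^ (1 / 4 : ℝ) := by positivity
    calc 8 * Real.log T * Real.log T ^ (1 / 2 : ℝ) ≤ 8 * Real.log T * Real.log T := by gcongr
      _ ≤ 8 * (1 / 8 * T ^ (1 / 4 : ℝ)) * (1 / 8 * T ^ (1 / 4 : ℝ)) := by gcongr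
      _ = 1 / 8 * (T ^ (1 / 4 : ℝ) * T ^ (1 / 4 : ℝ)) := by ring
      _ ≤ 1 * T := by gcongr; norm_num
      _ = T := one_mul T
  have g2 : ∀ᶠ T : ℝ in atTop, 2 ≤ Real.log T ^ (β - α) := by
    have := (tendsto_rpow_atTop (sub_pos.2 hβ1)).comp Real.tendsto_log_atTop
    exact this.eventually_ge_atTop 2
  have g3 : ∀ᶠ T : ℝ in atTop, 4 / (c * Q) ≤ T / Real.log T ^ (1 / 2 : ℝ) := by
    filter_upwards [g1, Real.tendsto_log_atTop.eventually_ge_atTop (4 / (c * Q)),
      Real.tendsto_log_atTop.eventually_ge_atTop 1] with T h1 h2 h3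
    rw [le_div_iff₀ (by positivity)]
    calc 4 / (c * Q) * Real.log T ^ (1 / 2 : ℝ) ≤ Real.log T * Real.log T ^ (1 / 2 : ℝ) := by gcongr
      _ ≤ 8 * Real.log T * Real.log T ^ (1 / 2 : ℝ) := by
          have : 0 ≤ Real.log T * Real.log T ^ (1 / 2 : ℝ) := by positivity
          linarith
      _ ≤ T := h1
  filter_upwards [g1, g2, g3, Pool.Agent.TH158.E8.Final.eighth_all β hβ0 hβ2, eventually_ge_atTop X0,
    Real.tendsto_log_atTop.eventually_ge_atTop 1] with T h1 h2 h3 h4 h5 h6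
  intro U H hU hUH hH E hE hTh
  have hT0 : 0 < T := by linarith
  set L : ℝ := Real.log T with hL
  have hL0 : 0 < L := by linarith
  have hLα : L ^ α ≤ L ^ (1 / 2 : ℝ) := Real.rpow_le_rpow_of_exponent_le h6 (by linarith)
  have hH8 : 8 * L ≤ H := by
    refine le_trans ?_ hH
    rw [le_div_iff₀ (by positivity)]
    calc 8 * L * L ^ α ≤ 8 * L * L ^ (1 / 2 : ℝ) := by gcongr
      _ ≤ T := h1
  have hH0 : 0 < H := by linarith
  have hH1 : T / L ^ β ≤ H - 4 * L := by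
    have e : L ^ β = L ^ α * L ^ (β - α) := by
      rw [← Real.rpow_add hL0]; congr 1; ring
    have h7 : T / L ^ β ≤ H / 2 := by
      rw [e, ← div_div]
      calc T / L ^ α / L ^ (β - α) ≤ H / L ^ (β - α) := by gcongr
        _ ≤ H / 2 := by gcongr
    linarith
  have h7 := h4 (U + 2 * L) (H - 4 * L) (by linarith) (by linarith) hH1
  have h8 := h T h5 U (U + H) hU (by linarith) hUH E hE hTh
  have e1 : U + 2 * L + (H - 4 * L) = U + H - 2 * L := by ring
  rw [e1, ← hQ] at h7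
  have h9 : Q * (H - 4 * L) * L ^ 16 ≤ ∫ t in (U + 2 * L)..(U + H - 2 * L), Z 4 t := h7
  have h10 : Q * (H / 2) * L ^ 16 ≤ Q * (H - 4 * L) * L ^ 16 := by gcongr; linarith
  have h11 : c * (Q * (H / 2) * L ^ 16) ≤ c * ∫ t in (U + 2 * L)..(U + H - 2 * L), Z 4 t := by
    gcongr
    exact h10.trans h9
  rw [← hL, neg_zero, Real.rpow_zero] at h8
  have h12 : 1 ≤ c * Q / 4 * H * L ^ 16 := by
    have h13 : 4 / (c * Q) ≤ H := h3.trans (le_trans (by gcongr) hH)
    have h14 : 1 ≤ c * Q / 4 * H := by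
      rw [div_le_iff₀ (by positivity)] at h13
      linarith
    have h15 : 1 ≤ L ^ 16 := one_le_pow₀ h6
    nlinarith
  have e3 : c * (Q * (H / 2) * L ^ 16) = 2 * (c * Q / 4 * H * L ^ 16) := by ring
  linarith

end

end Pool.Agent.J4.H63.TS
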